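import Pool.Agent.Helper76.ADP.Brt
import Pool.Agent.Helper76.ADP.Adg

/-! ONE ROW ON THE CELL: the variation in the first coordinate, the key estimate. And the determinant of a form of rows with
chosen nodes. -/

set_option autoImplicit false

namespace Pool.Agent.Helper18.PSH

open MvPolynomial Matrix
open Pool.Agent.Helper95.LF (PdM det_mono dv_add)
open Pool.Agent.Helper3.LF Pool.Agent.Helper84.MT
open Pool.Agent.Helper89.LX (dot_self_nonneg)
open Pool.Agent.Helper76.THK (cv pol_cv nodp_zero)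
open Pool.Agent.Helper76.ADP
open Pool.Agent.Helper76.PUR (mvt)

noncomputable section

variable {v M D : ℕ}

/-! ### one row -/

/-- the constant of the variation -/
def cV (v D : ℕ) : ℝ := 4 * (Cm (v + 1) D * 2 ^ ((v + 1) * D))

theorem cV_pos (v D : ℕ) : 0 < cV v D := by
  have := Cm_one (v + 1) D
  unfold cV
  positivity

/-- variation in the first coordinate -/
theorem var0 {q : MvPolynomial (Fin (v + 1)) ℝ} (hq : q.totalDegree ≤ D) {r t : ℝ} (hr : 0 < r) {x : Fin (v + 1) → ℝ}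
    (ht : ∀ l : Fin (v + 1) → Fin (D + 1), r * |eval (nodp D x r l) (pderiv 0 q)| ≤ t) {y y' : Fin (v + 1) → ℝ}
    (hy : ∀ i, |y i - x i| ≤ 2 * r) (hy' : ∀ i, |y' i - x i| ≤ 2 * r) (h : ∀ i, i ≠ 0 → y i = y' i) :
    |eval y q - eval y' q| ≤ cV v D * t := by
  obtain ⟨s, hs0, hs1, hs⟩ := mvt q y' y
  rw [hs, Finset.sum_eq_single (0 : Fin (v + 1))]
  · have h1 : ∀ i, |(fun a => y' a + s * (y a - y' a)) i - x i| ≤ 2 * r := by
      intro i
      have e1 : (fun a => y' a + s * (y a - y' a)) i - x i = (1 - s) * (y' i - x i) + s * (y i - x i) := by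
        show y' i + s * (y i - y' i) - x i = _
        ring
      rw [e1]
      refine (abs_add_le _ _).trans ?_
      rw [abs_mul, abs_mul, abs_of_nonneg (by linarith : (0 : ℝ) ≤ 1 - s), abs_of_pos hs0]
      have h2 := hy i
      have h3 := hy' i
      have h4 : (1 - s) * |y' i - x i| ≤ (1 - s) * (2 * r) := mul_le_mul_of_nonneg_left h3 (by linarith)
      have h5 : s * |y i - x i| ≤ s * (2 * r) := mul_le_mul_of_nonneg_left h2 hs0.le
      linarith
    have h2 := cell_val D (pderiv 0 q) (pderiv_tdeg q hq 0) x r 2 (t / r) hr (by norm_num) (fun l => by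
      rw [le_div_iff₀ hr, mul_comm]
      exact ht l) (fun a => y' a + s * (y a - y' a)) h1
    have h3 : |y 0 - y' 0| ≤ 4 * r := by
      have h4 := abs_sub (y 0 - x 0) (y' 0 - x 0)
      rw [sub_sub_sub_cancel_right] at h4
      have := hy 0
      have := hy' 0
      linarith
    rw [abs_mul]
    have ht0 : 0 ≤ t := (mul_nonneg hr.le (abs_nonneg _)).trans (ht fun _ => 0)
    calc |y 0 - y' 0| * |eval (fun a => y' a + s * (y a - y' a)) (pderiv 0 q)| ≤
        (4 * r) * (Cm (v + 1) D * 2 ^ ((v + 1) * D) * (t / r)) :=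
          mul_le_mul h3 h2 (abs_nonneg _) (by positivity)
      _ = cV v D * t := by
        unfold cV
        field_simp
  · intro b _ hb
    rw [h b hb, sub_self, zero_mul]
  · intro h0
    exact absurd (Finset.mem_univ _) h0

theorem node_lt (x : Fin (v + 1) → ℝ) {r : ℝ} (hr : 0 < r) (l : Fin (v + 1) → Fin (D + 1)) (b : Fin (v + 1)) :
    |nodp D x r l b - x b| < r := by
  have e1 : nodp D x r l b - x b = r * nod D (l b) := by
    unfold nodp
    ring
  rw [e1, abs_mul, abs_of_pos hr, abs_of_nonneg (nod_nonneg D _)]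
  have h1 : nod D (l b) < 1 := by
    unfold nod
    rw [div_lt_one (by positivity)]
    have h2 : ((l b : ℕ) : ℝ) ≤ D := by exact_mod_cast Nat.le_of_lt_succ (l b).2
    linarith
  have := mul_lt_mul_of_pos_left h1 hr
  linarith

/-- THE KEY ESTIMATE: a row which varies little in the first coordinate, is small at the point and obeys the inequality of
Remez in the other coordinates is small on the cell -/
theorem key_le {q : MvPolynomial (Fin (v + 1)) ℝ} (hq : q.totalDegree ≤ D) {r t K ε : ℝ} (hr : 0 < r)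
    {x : Fin (v + 1) → ℝ} (ht : ∀ l : Fin (v + 1) → Fin (D + 1), r * |eval (nodp D x r l) (pderiv 0 q)| ≤ t) {p : ℝ}
    (hp : |p - x 0| ≤ r) (hK : 0 ≤ K) (hR : ∀ s : Fin v → ℝ, (∀ i, |s i - x i.succ| < r) →
      |eval (Fin.cons p s : Fin (v + 1) → ℝ) q| ≤ K * |eval (Fin.cons p (fun i => x i.succ) : Fin (v + 1) → ℝ) q|)
    (hx : |eval x q| ≤ ε) (l : Fin (v + 1) → Fin (D + 1)) :
    |eval (nodp D x r l) q| ≤ K * (ε + cV v D * t) + cV v D * t := by
  have h1 : ∀ y : Fin (v + 1) → ℝ, (∀ i, |y i - x i| ≤ r) →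
      |eval y q - eval (Fin.cons p (fun i => y i.succ) : Fin (v + 1) → ℝ) q| ≤ cV v D * t := by
    intro y hy
    apply var0 hq hr ht (fun i => (hy i).trans (by linarith))
    · intro i
      refine Fin.cases ?_ (fun i => ?_) i
      · show |p - x 0| ≤ 2 * r
        linarith
      · show |y i.succ - x i.succ| ≤ 2 * r
        exact (hy _).trans (by linarith)
    · intro i hi
      obtain ⟨j, rfl⟩ := Fin.exists_succ_eq_of_ne_zero hi
      rfl
  have h2 := h1 (nodp D x r l) fun i => (node_lt x hr l i).le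
  have h3 := h1 x fun i => by rw [sub_self, abs_zero]; exact hr.le
  have h4 := hR (fun i => nodp D x r l i.succ) fun i => node_lt x hr l _
  have h5 : |eval (Fin.cons p (fun i => x i.succ) : Fin (v + 1) → ℝ) q| ≤ ε + cV v D * t := by
    have h6 := abs_sub (eval x q) (eval x q - eval (Fin.cons p (fun i => x i.succ) : Fin (v + 1) → ℝ) q)
    rw [sub_sub_cancel] at h6
    linarith
  have h7 := abs_add_le (eval (nodp D x r l) q - eval (Fin.cons p (fun i => nodp D x r l i.succ) : Fin (v + 1) → ℝ) q)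
    (eval (Fin.cons p (fun i => nodp D x r l i.succ) : Fin (v + 1) → ℝ) q)
  rw [sub_add_cancel] at h7
  have h8 := mul_le_mul_of_nonneg_left h5 hK
  linarith

/-- a node with a large derivative -/
theorem big_node {q : MvPolynomial (Fin (v + 1)) ℝ} (hq : q.totalDegree ≤ D) {r K : ℝ} (hr : 0 < r)
    {x : Fin (v + 1) → ℝ} {p : ℝ} (hp : |p - x 0| ≤ r) (hK : 0 ≤ K) (hR : ∀ s : Fin v → ℝ, (∀ i, |s i - x i.succ| < r) →
      |eval (Fin.cons p s : Fin (v + 1) → ℝ) q| ≤ K * |eval (Fin.cons p (fun i => x i.succ) : Fin (v + 1) → ℝ) q|)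
    (h1 : 1 ≤ ph D q r x) (hx : 2 * nn (v + 1) D * K * |eval x q| < 1) :
    ∃ l : Fin (v + 1) → Fin (D + 1), 1 ≤ 2 * nn (v + 1) D * (K + 1) * cV v D * (r * |eval (nodp D x r l) (pderiv 0 q)|) := by
  by_contra hc
  push Not at hc
  have hn := nn_one (v + 1) D
  have hV := cV_pos v D
  have hc0 : 0 < 2 * nn (v + 1) D * (K + 1) * cV v D := by positivity
  set t : ℝ := (2 * nn (v + 1) D * (K + 1) * cV v D)⁻¹ with ht
  have ht0 : 0 < t := inv_pos.mpr hc0
  have ht1 : 2 * nn (v + 1) D * (K + 1) * cV v D * t = 1 := mul_inv_cancel₀ hc0.ne'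
  have h2 : ∀ l : Fin (v + 1) → Fin (D + 1), r * |eval (nodp D x r l) (pderiv 0 q)| ≤ t := by
    intro l
    have h3 : 2 * nn (v + 1) D * (K + 1) * cV v D * (r * |eval (nodp D x r l) (pderiv 0 q)|) <
        2 * nn (v + 1) D * (K + 1) * cV v D * t := by
      rw [ht1]
      exact hc l
    exact (lt_of_mul_lt_mul_left h3 hc0.le).le
  have h4 : ∀ l, |eval (nodp D x r l) q| ≤ K * (|eval x q| + cV v D * t) + cV v D * t :=
    fun l => key_le hq hr h2 hp hK hR le_rfl l
  set β : ℝ := K * (|eval x q| + cV v D * t) + cV v D * t with hβ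
  have h5 : nn (v + 1) D * β < 1 := by
    have e1 : nn (v + 1) D * β = nn (v + 1) D * K * |eval x q| + nn (v + 1) D * (K + 1) * cV v D * t := by
      rw [hβ]
      ring
    rw [e1]
    linarith
  have hβ0 : 0 ≤ β := (abs_nonneg _).trans (h4 fun _ => 0)
  have hβ1 : β < 1 := lt_of_le_of_lt (le_mul_of_one_le_left hβ0 hn) h5
  have h6 : ph D q r x ≤ nn (v + 1) D * β := by
    unfold ph
    refine (Finset.sum_le_card_nsmul _ _ β fun l _ => ?_).trans (le_of_eq ?_)
    · have h7 := h4 l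
      rw [← sq_abs]
      calc |eval (nodp D x r l) q| ^ 2 ≤ β ^ 2 := pow_le_pow_left₀ (abs_nonneg _) h7 2
        _ = β * β := sq β
        _ ≤ 1 * β := mul_le_mul_of_nonneg_right hβ1.le hβ0
        _ = β := one_mul β
    · rw [nsmul_eq_mul, card_nodes]
  linarith

/-! ### the determinant -/

/-- the matrix of the gradients of the rows `p ∈ s` at the nodes `l p` -/
def gmx (s : Finset (Fin M)) (ψ : Fin M → MvPolynomial (Fin M) ℝ) (y : Fin M → Fin M → ℝ) : Matrix (Fin M) (Fin M) ℝ :=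
  Matrix.of fun p a => if p ∈ s then eval (y p) (pderiv a (ψ p)) else if a = p then 1 else 0

theorem gmx_det {s : Finset (Fin M)} {ψ : Fin M → MvPolynomial (Fin M) ℝ} (y : Fin M → Fin M → ℝ)
    (h : ∀ p ∈ s, ∀ a ∈ s, a ≠ p → pderiv a (ψ p) = 0) : (gmx s ψ y).det = ∏ p ∈ s, eval (y p) (pderiv p (ψ p)) := by
  classical
  rw [Matrix.det_apply, Finset.sum_eq_single (1 : Equiv.Perm (Fin M))]
  · rw [Equiv.Perm.sign_one, one_smul]
    have e1 : ∀ i : Fin M, gmx s ψ y ((1 : Equiv.Perm (Fin M)) i) i = if i ∈ s then eval (y i) (pderiv i (ψ i)) else 1 := by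
      intro i
      show (if i ∈ s then eval (y i) (pderiv i (ψ i)) else if i = i then 1 else 0) = _
      rw [if_pos rfl]
    rw [Finset.prod_congr rfl fun i _ => e1 i, Finset.prod_ite_mem, Finset.univ_inter]
  · intro π _ hπ
    have h1 : ∃ i, gmx s ψ y (π i) i = 0 := by
      by_contra hc
      push Not at hc
      apply hπ
      -- the elements of s are fixed
      have h2 : ∀ i ∈ s, π i = i := by
        intro i hi
        by_contra hne
        have h3 := hc i
        by_cases h4 : π i ∈ s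
        · apply h3
          show (if π i ∈ s then eval (y (π i)) (pderiv i (ψ (π i))) else if i = π i then 1 else 0) = 0
          rw [if_pos h4, h (π i) h4 i hi (fun h5 => hne h5.symm), map_zero]
        · apply h3
          show (if π i ∈ s then eval (y (π i)) (pderiv i (ψ (π i))) else if i = π i then 1 else 0) = 0
          rw [if_neg h4, if_neg fun h5 => hne h5.symm]
      apply Equiv.ext
      intro i
      by_cases hi : i ∈ s
      · exact h2 i hi
      · by_contra hne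
        have h4 : π i ∉ s := by
          intro h5
          have h6 := h2 (π i) h5
          exact hne (π.injective h6)
        apply hc i
        show (if π i ∈ s then eval (y (π i)) (pderiv i (ψ (π i))) else if i = π i then 1 else 0) = 0
        rw [if_neg h4, if_neg fun h5 => hne h5.symm]
    obtain ⟨i, hi⟩ := h1
    have h7 : ∏ i, gmx s ψ y (π i) i = 0 := Finset.prod_eq_zero (Finset.mem_univ i) hi
    exact (congrArg (fun z : ℝ => Equiv.Perm.sign π • z) h7).trans (smul_zero _)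
  · intro h0
    exact absurd (Finset.mem_univ _) h0

/-- the gradient determinant, one node for every row -/
theorem GQ_rows {s : Finset (Fin M)} {t : Fin M → ℝ} {ψ : Fin M → MvPolynomial (Fin M) ℝ} {c : Fin M → ℝ}
    (hψ : ∀ j, (ψ j).totalDegree ≤ D) (ht : ∀ p ∈ s, t p = 1)
    (h : ∀ p ∈ s, ∀ a ∈ s, a ≠ p → pderiv a (ψ p) = 0) (r : ℝ) (x : Fin M → ℝ) (l : Fin M → Fin M → Fin (D + 1)) :
    ∏ p ∈ s, (eval (nodp D x r (l p)) (pderiv p (ψ p))) ^ 2 ≤ GQ r (Brt D t ψ c) x := by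
  classical
  have hpd := one_Jq_pd r (Brt_symm (D := D) t ψ c) (Brt_nn t ψ c) x
  set G : Matrix (Fin M) (Fin M) ℝ := gmx s ψ fun p => nodp D x r (l p) with hG
  have hdG : (G.transpose * G).det = ∏ p ∈ s, (eval (nodp D x r (l p)) (pderiv p (ψ p))) ^ 2 := by
    rw [Matrix.det_mul, Matrix.det_transpose, hG, gmx_det _ h, ← sq, Finset.prod_pow]
  by_cases h0 : ∏ p ∈ s, (eval (nodp D x r (l p)) (pderiv p (ψ p))) ^ 2 = 0
  · rw [h0]
    exact le_trans zero_le_one (one_le_GQ r (Brt_symm t ψ c) (Brt_nn t ψ c) x)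
  have hqG : ∀ y : Fin M → ℝ, y ⬝ᵥ ((G.transpose * G) *ᵥ y) = ∑ j, (G *ᵥ y) j ^ 2 := by
    intro y
    rw [← Matrix.mulVec_mulVec, Matrix.dotProduct_mulVec, Matrix.vecMul_transpose]
    unfold dotProduct
    exact Finset.sum_congr rfl fun j _ => (pow_two _).symm
  have hGy : ∀ (y : Fin M → ℝ) (p : Fin M), p ∈ s → (G *ᵥ y) p =
      shf (cv D (ψ p)) (c p) ⬝ᵥ (Wq M D (nodp D x r (l p)) *ᵥ y) := by
    intro y p hp
    have e1 : (Wq M D (nodp D x r (l p)) *ᵥ y) = ∑ a, y a • dd a (nodp D x r (l p)) := by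
      funext μ
      rw [Finset.sum_apply]
      show ∑ a, dd a (nodp D x r (l p)) μ * y a = ∑ a, y a * dd a (nodp D x r (l p)) μ
      exact Finset.sum_congr rfl fun a _ => mul_comm _ _
    have e2 : ∀ a, shf (cv D (ψ p)) (c p) ⬝ᵥ dd a (nodp D x r (l p)) = eval (nodp D x r (l p)) (pderiv a (ψ p)) := by
      intro a
      rw [shf_dot, dd_zero, mul_zero, sub_zero, ← eval_pderiv_pol, pol_cv (hψ p)]
    have e3 : (G *ᵥ y) p = ∑ a, G p a * y a := rfl
    rw [e1, dotProduct_sum, e3]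
    refine Finset.sum_congr rfl fun a _ => ?_
    rw [dotProduct_smul, e2, smul_eq_mul]
    have e4 : G p a = eval (nodp D x r (l p)) (pderiv a (ψ p)) := if_pos hp
    rw [e4]
    ring
  have hGn : ∀ (y : Fin M → ℝ) (p : Fin M), p ∉ s → (G *ᵥ y) p = y p := by
    intro y p hp
    have e3 : (G *ᵥ y) p = ∑ a, G p a * y a := rfl
    rw [e3, Finset.sum_eq_single p]
    · have e4 : G p p = 1 := (if_neg hp).trans (if_pos rfl)
      rw [e4, one_mul]
    · intro b _ hb
      have e4 : G p b = 0 := (if_neg hp).trans (if_neg hb)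
      rw [e4, zero_mul]
    · intro h1
      exact absurd (Finset.mem_univ _) h1
  have hGpd : PdM (G.transpose * G) := by
    refine ⟨?_, fun y hy => ?_⟩
    · show (G.transpose * G).transpose = _
      rw [Matrix.transpose_mul, Matrix.transpose_transpose]
    · have h1 : 0 ≤ y ⬝ᵥ ((G.transpose * G) *ᵥ y) := by
        rw [hqG]
        exact Finset.sum_nonneg fun j _ => sq_nonneg _
      rcases h1.lt_or_eq with h2 | h2
      · exact h2
      · exfalso
        rw [hqG] at h2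
        have h3 : G *ᵥ y = 0 := by
          funext j
          have h4 := (Finset.sum_eq_zero_iff_of_nonneg (fun j _ => sq_nonneg ((G *ᵥ y) j))).mp h2.symm j (Finset.mem_univ j)
          exact pow_eq_zero_iff (two_ne_zero) |>.mp h4
        have h5 : G.det ≠ 0 := by
          intro h6
          apply h0
          rw [← hdG, Matrix.det_mul, h6, mul_zero]
        exact hy (Matrix.eq_zero_of_mulVec_eq_zero h5 h3)
  rw [← hdG]
  refine det_mono hGpd hpd.1 fun y => ?_
  rw [dv_add, Matrix.one_mulVec, Jq_qf, hqG]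
  -- the rows outside `s`
  have h1 : ∑ j, (G *ᵥ y) j ^ 2 = ∑ p ∈ sᶜ, y p ^ 2 + ∑ p ∈ s, (G *ᵥ y) p ^ 2 := by
    rw [← Finset.sum_compl_add_sum s]
    refine congrArg (fun z => z + ∑ p ∈ s, (G *ᵥ y) p ^ 2) (Finset.sum_congr rfl fun p hp => ?_)
    rw [hGn y p (Finset.mem_compl.mp hp)]
  have h2 : ∑ p ∈ sᶜ, y p ^ 2 ≤ y ⬝ᵥ y := by
    unfold dotProduct
    refine (Finset.sum_le_sum_of_subset_of_nonneg (Finset.subset_univ _) fun i _ _ => sq_nonneg (y i)).trans (le_of_eq ?_)
    exact Finset.sum_congr rfl fun i _ => sq (y i)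
  -- the rows in `s`
  have h3 : ∑ p ∈ s, (G *ᵥ y) p ^ 2 ≤ ∑ p ∈ s, ∑ j : Fin M → Fin (D + 1),
      (shf (cv D (ψ p)) (c p) ⬝ᵥ (Wq M D (nodp D x r j) *ᵥ y)) ^ 2 := by
    refine Finset.sum_le_sum fun p hp => ?_
    rw [hGy y p hp]
    exact Finset.single_le_sum (f := fun j : Fin M → Fin (D + 1) =>
      (shf (cv D (ψ p)) (c p) ⬝ᵥ (Wq M D (nodp D x r j) *ᵥ y)) ^ 2) (fun j _ => sq_nonneg _) (Finset.mem_univ (l p))
  have h4 : ∑ p ∈ s, ∑ j : Fin M → Fin (D + 1), (shf (cv D (ψ p)) (c p) ⬝ᵥ (Wq M D (nodp D x r j) *ᵥ y)) ^ 2 ≤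
      ∑ j : Fin M → Fin (D + 1), (Wq M D (nodp D x r j) *ᵥ y) ⬝ᵥ (Brt D t ψ c *ᵥ (Wq M D (nodp D x r j) *ᵥ y)) := by
    rw [Finset.sum_comm]
    refine Finset.sum_le_sum fun j _ => ?_
    rw [Brt_qf]
    have h5 := dot_self_nonneg (Wq M D (nodp D x r j) *ᵥ y)
    have h6 : ∑ p ∈ s, (shf (cv D (ψ p)) (c p) ⬝ᵥ (Wq M D (nodp D x r j) *ᵥ y)) ^ 2 ≤
        ∑ p, t p ^ 2 * (shf (cv D (ψ p)) (c p) ⬝ᵥ (Wq M D (nodp D x r j) *ᵥ y)) ^ 2 := by
      have h7 : ∑ p ∈ s, (shf (cv D (ψ p)) (c p) ⬝ᵥ (Wq M D (nodp D x r j) *ᵥ y)) ^ 2 =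
          ∑ p ∈ s, t p ^ 2 * (shf (cv D (ψ p)) (c p) ⬝ᵥ (Wq M D (nodp D x r j) *ᵥ y)) ^ 2 :=
        Finset.sum_congr rfl fun p hp => by rw [ht p hp, one_pow, one_mul]
      rw [h7]
      exact Finset.sum_le_sum_of_subset_of_nonneg (Finset.subset_univ _) fun i _ _ =>
        mul_nonneg (sq_nonneg _) (sq_nonneg _)
    linarith
  rw [h1]
  linarith

end

end Pool.Agent.Helper18.PSH
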