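import Pool.Agent.Helper89.MG.Typf
import Pool.Agent.Helper76.DIM.Dim
import Pool.Agent.Helper13.AM.Zq

/-! TYPICAL VALUES IN THE CELLS OF LEVEL `b`: a variable which is full in its cells of level `b` over a base, a polynomial
known to the base: the value at the point is typically not much smaller than the values in the ball of radius
`2 ^ (- b n)`. -/

set_option autoImplicit false

namespace Pool.Agent.Helper18.PSH

open Finset Filter Topology Matrix Pool.Agent.Helper69.RK Pool.Agent.Helper31.EC Pool.Agent.Helper31.EC.Sp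
open Pool.Agent.Helper40.EL Pool.Agent.Helper3.LF Pool.Agent.Helper84.MT
open Pool.Agent.Helper89.LX (typ_pol)

noncomputable section

variable {S : Sp} {v D : ℕ}

theorem ev_bind {m n : ℕ} (P : Fin n → MvPolynomial (Fin m) ℝ) (G : MvPolynomial (Fin n) ℝ) (x : Fin m → ℝ) :
    MvPolynomial.eval x (MvPolynomial.bind₁ P G) = MvPolynomial.eval (fun i => MvPolynomial.eval x (P i)) G := by
  rw [MvPolynomial.eval, MvPolynomial.eval₂Hom_bind₁]
  rfl

/-- the fractional parts at the level `b` -/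
def frc (X : S.VV v) (b : ℝ) (B : ∀ k, Setoid (S.F k).Ω) (c : ℝ) (hc : 0 < c) : (S.chg B c hc).VV v where
  v := fun k ω i => Int.fract (X.v k ω i / S.dl b k)
  bd := by
    refine ⟨fun _ => 1, (S.chg B c hc).Sub_const zero_le_one, Eventually.of_forall fun k ω _ i => ?_⟩
    rw [abs_of_nonneg (Int.fract_nonneg _)]
    exact (Int.fract_lt_one _).le

/-- the parts of the levels -/
theorem dl_div (S : Sp) (b : ℝ) (k : ℕ) (x : ℝ) : x / S.dl 1 k = x / S.dl b k / S.dl (1 - b) k := by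
  have e1 : S.dl 1 k = S.dl b k * S.dl (1 - b) k := by
    rw [← S.dl_add]
    congr 1
    ring
  rw [e1, div_div]

/-- FULLNESS -/
theorem frc_full (X : S.VV v) {b : ℝ} (hb : b < 1) (B : ∀ k, Setoid (S.F k).Ω)
    (hB : ∀ᶠ k in UF, ∀ ω ω', (S.F k).μ ω ≠ 0 → (S.F k).μ ω' ≠ 0 → (S.F k).Z ω ω' → B k ω ω' →
      X.cellv b k ω = X.cellv b k ω')
    (full : ∀ ε : ℝ, 0 < ε → ∀ᶠ k in UF, (v * (1 - b) - ε) * (S.F k).n ≤
      (S.F k).e (Setoid.ker (X.cellv 1 k)) (B k ⊓ (S.F k).Z)) :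
    Tendsto (fun k => h (fc (Setoid.ker ((frc X b B (1 - b) (by linarith)).cellv 1 k)))
      (fc (F := (S.chg B (1 - b) (by linarith)).F k) ⊤) / ((S.chg B (1 - b) (by linarith)).F k).n) UF (𝓝 v) := by
  have hb0 : 0 < 1 - b := by linarith
  set T : Sp := S.chg B (1 - b) hb0 with hT
  set y : T.VV v := frc X b B (1 - b) hb0 with hy
  have hdl : ∀ k, T.dl 1 k = S.dl (1 - b) k := fun k => by rw [hT, chg_dl, mul_one]
  set yc : ∀ k, (S.F k).Ω → Fin v → ℤ := fun k ω i => ⌊Int.fract (X.v k ω i / S.dl b k) / S.dl (1 - b) k⌋ with hyc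
  have hcell : ∀ k, y.cellv 1 k = yc k := by
    intro k
    funext ω i
    show ⌊Int.fract (X.v k ω i / S.dl b k) / T.dl 1 k⌋ = _
    rw [hdl]
  have hh : ∀ k, h (fc (Setoid.ker (y.cellv 1 k))) (fc (F := T.F k) ⊤) =
      (S.F k).e (Setoid.ker (yc k)) (B k ⊓ (S.F k).Z) := by
    intro k
    rw [hcell]
    have h1 := h_fc (F := T.F k) (Setoid.ker (yc k)) ⊤
    rw [top_inf_eq] at h1
    exact h1
  -- the lower bound
  have hlow : ∀ k, (∀ ω ω', (S.F k).μ ω ≠ 0 → (S.F k).μ ω' ≠ 0 → (S.F k).Z ω ω' → B k ω ω' →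
      X.cellv b k ω = X.cellv b k ω') → (S.F k).e (Setoid.ker (X.cellv 1 k)) (B k ⊓ (S.F k).Z) ≤
      (S.F k).e (Setoid.ker (yc k)) (B k ⊓ (S.F k).Z) + v := by
    intro k hk
    have h1 := (S.F k).e_triangle (Setoid.ker (X.cellv 1 k)) (Setoid.ker (yc k)) (B k ⊓ (S.F k).Z)
    have h2 : (S.F k).e (Setoid.ker (X.cellv 1 k)) (Setoid.ker (yc k) ⊓ (B k ⊓ (S.F k).Z)) ≤
        v * Real.logb 2 (1 + 1) := by
      apply (S.F k).e_int_le (X.cellv 1 k) _ 1 zero_le_one
      intro ω ω' a b' c i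
      have c1 : yc k ω = yc k ω' := c.1
      have c2 := congrFun (hk ω ω' a b' c.2.2 c.2.1) i
      have c3 : ⌊Int.fract (X.v k ω i / S.dl b k) / S.dl (1 - b) k⌋ =
        ⌊Int.fract (X.v k ω' i / S.dl b k) / S.dl (1 - b) k⌋ := congrFun c1 i
      have c4 : ⌊X.v k ω i / S.dl b k⌋ = ⌊X.v k ω' i / S.dl b k⌋ := c2
      have hd := S.dl_pos (1 - b) k
      have f1 := Int.floor_le (Int.fract (X.v k ω i / S.dl b k) / S.dl (1 - b) k)
      have f2 := Int.lt_floor_add_one (Int.fract (X.v k ω i / S.dl b k) / S.dl (1 - b) k)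
      have f3 := Int.floor_le (Int.fract (X.v k ω' i / S.dl b k) / S.dl (1 - b) k)
      have f4 := Int.lt_floor_add_one (Int.fract (X.v k ω' i / S.dl b k) / S.dl (1 - b) k)
      rw [← c3] at f3 f4
      have e1 : ∀ ω'', X.v k ω'' i / S.dl 1 k = (⌊X.v k ω'' i / S.dl b k⌋ : ℝ) / S.dl (1 - b) k +
          Int.fract (X.v k ω'' i / S.dl b k) / S.dl (1 - b) k := by
        intro ω''
        rw [dl_div S b, ← add_div, Int.floor_add_fract]
      have e2 : |X.v k ω i / S.dl 1 k - X.v k ω' i / S.dl 1 k| < 1 := by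
        rw [e1 ω, e1 ω', c4, abs_lt]
        constructor <;> linarith
      show |((⌊X.v k ω i / S.dl 1 k⌋ : ℤ) : ℝ) - (⌊X.v k ω' i / S.dl 1 k⌋ : ℤ)| ≤ 1
      have e3 : |(⌊X.v k ω i / S.dl 1 k⌋ : ℤ) - ⌊X.v k ω' i / S.dl 1 k⌋| ≤ 1 := by
        have g1 := Int.floor_le (X.v k ω i / S.dl 1 k)
        have g2 := Int.lt_floor_add_one (X.v k ω i / S.dl 1 k)
        have g3 := Int.floor_le (X.v k ω' i / S.dl 1 k)
        have g4 := Int.lt_floor_add_one (X.v k ω' i / S.dl 1 k)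
        rw [abs_lt] at e2
        have g5 : ((⌊X.v k ω i / S.dl 1 k⌋ : ℤ) : ℝ) - ⌊X.v k ω' i / S.dl 1 k⌋ < 2 := by linarith
        have g6 : (-2 : ℝ) < ((⌊X.v k ω i / S.dl 1 k⌋ : ℤ) : ℝ) - ⌊X.v k ω' i / S.dl 1 k⌋ := by linarith
        have g7 : ⌊X.v k ω i / S.dl 1 k⌋ - ⌊X.v k ω' i / S.dl 1 k⌋ < 2 := by exact_mod_cast g5
        have g8 : -2 < ⌊X.v k ω i / S.dl 1 k⌋ - ⌊X.v k ω' i / S.dl 1 k⌋ := by exact_mod_cast g6
        rw [abs_le]
        constructor <;> omega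
      exact_mod_cast e3
    have e4 : Real.logb 2 (1 + 1) = 1 := by
      rw [one_add_one_eq_two]
      exact Real.logb_self_eq_one (by norm_num)
    rw [e4, mul_one] at h2
    linarith
  -- the upper bound
  have hup : ∀ k, (S.F k).e (Setoid.ker (yc k)) (B k ⊓ (S.F k).Z) ≤ v * ((1 - b) * (S.F k).n + 1) := by
    intro k
    have hd := S.dl_pos (1 - b) k
    have h1 := (S.F k).e_int_le (yc k) (B k ⊓ (S.F k).Z) (1 / S.dl (1 - b) k) (by positivity)
      (fun ω ω' _ _ _ i => by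
        show |((⌊Int.fract (X.v k ω i / S.dl b k) / S.dl (1 - b) k⌋ : ℤ) : ℝ) -
          (⌊Int.fract (X.v k ω' i / S.dl b k) / S.dl (1 - b) k⌋ : ℤ)| ≤ _
        have f0 : ∀ ω'', (0 : ℤ) ≤ ⌊Int.fract (X.v k ω'' i / S.dl b k) / S.dl (1 - b) k⌋ ∧
            ((⌊Int.fract (X.v k ω'' i / S.dl b k) / S.dl (1 - b) k⌋ : ℤ) : ℝ) ≤ 1 / S.dl (1 - b) k := by
          intro ω''
          refine ⟨Int.floor_nonneg.mpr (div_nonneg (Int.fract_nonneg _) hd.le), (Int.floor_le _).trans ?_⟩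
          apply div_le_div_of_nonneg_right _ hd.le
          exact (Int.fract_lt_one _).le
        obtain ⟨a1, a2⟩ := f0 ω
        obtain ⟨b1, b2⟩ := f0 ω'
        have a3 : (0 : ℝ) ≤ ((⌊Int.fract (X.v k ω i / S.dl b k) / S.dl (1 - b) k⌋ : ℤ) : ℝ) := by exact_mod_cast a1
        have b3 : (0 : ℝ) ≤ ((⌊Int.fract (X.v k ω' i / S.dl b k) / S.dl (1 - b) k⌋ : ℤ) : ℝ) := by exact_mod_cast b1
        rw [abs_le]
        constructor <;> linarith)
    refine h1.trans (mul_le_mul_of_nonneg_left ?_ (Nat.cast_nonneg v))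
    have hn := (S.F k).pos
    have e1 : 1 / S.dl (1 - b) k = 2 ^ ((1 - b) * (S.F k).n) := by
      unfold Sp.dl
      rw [Real.rpow_neg (by norm_num), one_div, inv_inv]
    rw [e1]
    have h2 : (1 : ℝ) ≤ 2 ^ ((1 - b) * (S.F k).n) := Real.one_le_rpow (by norm_num) (by positivity)
    calc Real.logb 2 (2 ^ ((1 - b) * (S.F k).n) + 1) ≤ Real.logb 2 (2 ^ ((1 - b) * (S.F k).n + 1)) := by
          apply Real.logb_le_logb_of_le (by norm_num) (by positivity)
          rw [Real.rpow_add (by norm_num), Real.rpow_one]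
          linarith
      _ = (1 - b) * (S.F k).n + 1 := Real.logb_rpow (by norm_num) (by norm_num)
  rw [Metric.tendsto_nhds]
  intro ε hε
  have hε2 : 0 < ε * (1 - b) / 2 := by positivity
  have hn' : Tendsto (fun k => (v : ℝ) / (S.F k).n) UF (𝓝 0) := S.div_n_tendsto v
  filter_upwards [full (ε * (1 - b) / 2) hε2, hB, hn'.eventually (gt_mem_nhds hε2)] with k a1 a2 a3
  have hn := (S.F k).pos
  have h1 := hlow k a2
  have h2 := hup k
  rw [div_lt_iff₀ hn] at a3
  have e1 : (T.F k).n = (1 - b) * (S.F k).n := rfl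
  have hTn : 0 < (1 - b) * (S.F k).n := by positivity
  rw [Real.dist_eq, hh, e1, abs_lt]
  constructor
  · rw [lt_sub_iff_add_lt, lt_div_iff₀ hTn]
    nlinarith
  · rw [sub_lt_iff_lt_add, div_lt_iff₀ hTn]
    nlinarith

/-- the leaf of the full variable -/
def lfy {T : Sp} (y : T.VV v) (full : Tendsto (fun k => h (fc (Setoid.ker (y.cellv 1 k))) (fc (F := T.F k) ⊤) /
    (T.F k).n) UF (𝓝 v)) : Leaf T y (lin (v + 1)) :=
  Leaf.ofPoly (v + 1) (Nat.succ_le_succ (Nat.zero_le v)) v (Nat.le_succ v) (fun _ => ⊤) y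
    (fun _ _ i => MvPolynomial.X i) (fun _ _ i => by
      rw [MvPolynomial.totalDegree_X]
      exact Nat.succ_le_succ (Nat.zero_le v))
    (Eventually.of_forall fun _ _ _ _ _ _ _ => rfl)
    ⟨fun _ => 1, T.Sub_const zero_le_one, Eventually.of_forall fun k ω _ i a => by
      classical
      rw [MvPolynomial.coeff_X]
      split_ifs
      · rw [abs_one]
      · rw [abs_zero]
        exact zero_le_one⟩
    ⟨fun _ => 1, T.Sub_const zero_le_one, Eventually.of_forall fun k ω _ i => by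
      rw [MvPolynomial.eval_X, sub_self, abs_zero, one_mul]
      exact (T.dl_pos 1 k).le⟩
    full

/-- **TYPICAL VALUES IN THE CELLS** -/
theorem cell_rem (X : S.VV v) {b : ℝ} (hb : b < 1) (B : ∀ k, Setoid (S.F k).Ω)
    (hB : ∀ᶠ k in UF, ∀ ω ω', (S.F k).μ ω ≠ 0 → (S.F k).μ ω' ≠ 0 → (S.F k).Z ω ω' → B k ω ω' →
      X.cellv b k ω = X.cellv b k ω')
    (full : ∀ ε : ℝ, 0 < ε → ∀ᶠ k in UF, (v * (1 - b) - ε) * (S.F k).n ≤
      (S.F k).e (Setoid.ker (X.cellv 1 k)) (B k ⊓ (S.F k).Z))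
    (g : ∀ k, (S.F k).Ω → MvPolynomial (Fin v) ℝ)
    (hg : ∀ᶠ k in UF, ∀ ω, (S.F k).μ ω ≠ 0 → (g k ω).totalDegree ≤ D)
    (hm : ∀ᶠ k in UF, ∀ ω ω', (S.F k).μ ω ≠ 0 → (S.F k).μ ω' ≠ 0 → (S.F k).Z ω ω' → B k ω ω' → g k ω = g k ω') :
    ∃ K : ℕ → ℝ, S.Sub K ∧ Typ (fun k ω => ∀ s : Fin v → ℝ, (∀ i, |s i - X.v k ω i| < S.dl b k) →
      |MvPolynomial.eval s (g k ω)| ≤ K k * |MvPolynomial.eval (X.v k ω) (g k ω)|) := by
  have hb0 : 0 < 1 - b := by linarith
  set T : Sp := S.chg B (1 - b) hb0 with hT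
  set y : T.VV v := frc X b B (1 - b) hb0 with hy
  have hfull := frc_full X hb B hB full
  set l : Leaf T y (lin (v + 1)) := lfy y hfull with hl
  have hfe : ∀ k (ω : (S.F k).Ω) (s : Fin v → ℝ), MvPolynomial.eval s
      (MvPolynomial.bind₁ (fun i => MvPolynomial.C (S.dl b k) * (MvPolynomial.C ((⌊X.v k ω i / S.dl b k⌋ : ℤ) : ℝ) +
        MvPolynomial.X i)) (g k ω)) =
      MvPolynomial.eval (fun i => S.dl b k * (⌊X.v k ω i / S.dl b k⌋ + s i)) (g k ω) := by
    intro k ω s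
    rw [ev_bind]
    refine congrArg (fun z : Fin v → ℝ => MvPolynomial.eval z (g k ω)) (funext fun i => ?_)
    rw [map_mul, map_add, MvPolynomial.eval_C, MvPolynomial.eval_C, MvPolynomial.eval_X]
  obtain ⟨K, hK, hT1⟩ := typ_pol l (c := 0) le_rfl one_pos (fun k => FLab.triv (T.F k)) (by
    show Tendsto _ _ _
    simp only [FLab.triv_leak, zero_div]
    exact tendsto_const_nhds) (D := D)
    (fun k ω s => MvPolynomial.eval s (MvPolynomial.bind₁ (fun i => MvPolynomial.C (S.dl b k) *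
      (MvPolynomial.C ((⌊X.v k ω i / S.dl b k⌋ : ℤ) : ℝ) + MvPolynomial.X i)) (g k ω)))
    (by
      filter_upwards [hg] with k hk ω hω
      refine ⟨_, ?_, rfl⟩
      rw [one_mul]
      refine (totalDegree_bind_le (g k ω) _ 1 fun i => ?_).trans ?_
      · refine (MvPolynomial.totalDegree_mul _ _).trans ?_
        rw [MvPolynomial.totalDegree_C, zero_add]
        refine (MvPolynomial.totalDegree_add _ _).trans ?_
        rw [MvPolynomial.totalDegree_C, MvPolynomial.totalDegree_X]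
        exact le_rfl
      · rw [one_mul]
        exact hk ω hω)
    (κ := fun _ => 1) (T.Sub_const zero_le_one) (by
      filter_upwards [hm, hB] with k a1 a2 w w' hw hw' hZ _ _ _ p
      have hZ' : (S.F k).Z w w' ∧ B k w w' := ⟨hZ.2, hZ.1⟩
      have e1 := a1 w w' hw hw' hZ'.1 hZ'.2
      have e2 := a2 w w' hw hw' hZ'.1 hZ'.2
      have e3 : ∀ i, ⌊X.v k w i / S.dl b k⌋ = ⌊X.v k w' i / S.dl b k⌋ := fun i => congrFun e2 i
      have e4 : (fun i => S.dl b k * ((⌊X.v k w' i / S.dl b k⌋ : ℝ) + p i)) =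
          fun i => S.dl b k * ((⌊X.v k w i / S.dl b k⌋ : ℝ) + p i) := funext fun i => by rw [e3 i]
      have e5 := (hfe k w' p).trans ((congrArg (fun z : Fin v → ℝ => MvPolynomial.eval z (g k w')) e4).trans
        ((congrArg (fun z => MvPolynomial.eval (fun i => S.dl b k * ((⌊X.v k w i / S.dl b k⌋ : ℝ) + p i)) z)
          e1.symm).trans (hfe k w p).symm))
      rw [one_mul]
      exact (congrArg abs e5).le)
  refine ⟨K, Pool.Agent.Helper13.AM.chg_sub' B (1 - b) hb0 hK, ?_⟩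
  have hT2 : Typ (S := S) (fun k (w : (S.F k).Ω) => ∀ y' : Fin v → ℝ,
      (∀ i, |y' i - Int.fract (X.v k w i / S.dl b k)| < 1) →
      |MvPolynomial.eval (fun i => S.dl b k * (⌊X.v k w i / S.dl b k⌋ + y' i)) (g k w)| ≤
        K k * |MvPolynomial.eval (fun i => S.dl b k * (⌊X.v k w i / S.dl b k⌋ +
          Int.fract (X.v k w i / S.dl b k))) (g k w)|) := by
    refine typ_mono (S := T) hT1 ?_
    filter_upwards [hK.1] with k hK0 w _ h1 y' hy'
    have h2 := h1 y' (fun i => by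
      rw [T.dl_zero]
      exact hy' i)
    have e5 : ∀ z : Fin v → ℝ, (l.F k ((FLab.triv (T.F k)).p.π w) z) = z := by
      intro z
      funext i
      show MvPolynomial.eval z (MvPolynomial.X i) = z i
      rw [MvPolynomial.eval_X]
    have e6 := (congrArg (fun z : Fin v → ℝ => MvPolynomial.eval z (MvPolynomial.bind₁ (fun i =>
      MvPolynomial.C (S.dl b k) * (MvPolynomial.C ((⌊X.v k w i / S.dl b k⌋ : ℤ) : ℝ) + MvPolynomial.X i)) (g k w)))
      (e5 y')).trans (hfe k w y')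
    have e7 := (congrArg (fun z : Fin v → ℝ => MvPolynomial.eval z (MvPolynomial.bind₁ (fun i =>
      MvPolynomial.C (S.dl b k) * (MvPolynomial.C ((⌊X.v k w i / S.dl b k⌋ : ℤ) : ℝ) + MvPolynomial.X i)) (g k w)))
      (e5 (fun i => Int.fract (X.v k w i / S.dl b k)))).trans (hfe k w _)
    have e8 := (congrArg abs e6.symm).le.trans (h2.trans (mul_le_mul_of_nonneg_left (congrArg abs e7).le hK0))
    exact e8
  refine typ_mono hT2 (Eventually.of_forall fun k w _ h1 s hs => ?_)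
  have hd := S.dl_pos b k
  have h2 := h1 (fun i => s i / S.dl b k - ⌊X.v k w i / S.dl b k⌋) (fun i => by
    have e1 : s i / S.dl b k - (⌊X.v k w i / S.dl b k⌋ : ℝ) - Int.fract (X.v k w i / S.dl b k) =
        (s i - X.v k w i) / S.dl b k := by
      have := Int.floor_add_fract (X.v k w i / S.dl b k)
      rw [sub_sub, this]
      ring
    rw [e1, abs_div, abs_of_pos hd, div_lt_one hd]
    exact hs i)
  have e2 : (fun i => S.dl b k * ((⌊X.v k w i / S.dl b k⌋ : ℝ) + (s i / S.dl b k - ⌊X.v k w i / S.dl b k⌋))) = s := by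
    funext i
    rw [add_sub_cancel, mul_div_cancel₀ _ hd.ne']
  have e3 : (fun i => S.dl b k * ((⌊X.v k w i / S.dl b k⌋ : ℝ) + Int.fract (X.v k w i / S.dl b k))) = X.v k w := by
    funext i
    rw [Int.floor_add_fract, mul_div_cancel₀ _ hd.ne']
  rw [e2, e3] at h2
  exact h2

end

end Pool.Agent.Helper18.PSH
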