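import Pool.Agent.Helper18.PSH.Row
import Pool.Agent.Helper18.PSH.Zom
import Pool.Agent.Helper93.NSL.Cutv
import Pool.Agent.Helper3.LF.Spd

/-! ONE CUT: a form in `v + 1` coordinates with the exponent `b` in the direction `0`, the other coordinates full: after a
tame code there is a row, bounded on the cell of level `b`, whose derivative in the direction `0` is large at a node. -/

set_option autoImplicit false

namespace Pool.Agent.Helper18.PSH

open Finset Filter Topology Matrix Pool.Agent.Helper69.RK Pool.Agent.Helper31.EC Pool.Agent.Helper31.EC.Sp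
open Pool.Agent.Helper40.EL Pool.Agent.Helper3.LF Pool.Agent.Helper84.MT
open Pool.Agent.Helper95.LF (PdM)
open Pool.Agent.Helper76.RL (Rw cP cP_one)
open Pool.Agent.Helper76.DIM (tlv ent_fin)
open Pool.Agent.Helper76.PUR (cW cW_one nRw)
open Pool.Agent.Helper93.NSL (ev_const)

noncomputable section

variable {S : Sp} {v m D : ℕ}

/-! ### the corners -/

/-- the corners of the cells of level one -/
def rnd (P : S.VV m) : S.VV m where
  v := fun k ω i => S.dl 1 k * ((⌊P.v k ω i / S.dl 1 k⌋ : ℤ) : ℝ)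
  bd := by
    obtain ⟨K, hK, h⟩ := P.bd
    refine ⟨fun k => K k + 1, hK.add (S.Sub_const zero_le_one), ?_⟩
    filter_upwards [h] with k hk ω hω i
    have h1 := hk ω hω i
    have hd := S.dl_pos 1 k
    have hd1 : S.dl 1 k ≤ 1 := Pool.Agent.Helper89.LX.dl_one_le S k
    have f1 := mul_le_mul_of_nonneg_left (Int.floor_le (P.v k ω i / S.dl 1 k)) hd.le
    have f2 := mul_lt_mul_of_pos_left (Int.lt_floor_add_one (P.v k ω i / S.dl 1 k)) hd
    have e1 : S.dl 1 k * (P.v k ω i / S.dl 1 k) = P.v k ω i := by field_simp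
    rw [e1] at f1 f2
    rw [mul_add, mul_one] at f2
    rw [abs_le] at h1 ⊢
    constructor <;> linarith [h1.1, h1.2]

theorem rnd_le (P : S.VV m) (k : ℕ) (ω : (S.F k).Ω) (i : Fin m) :
    (rnd P).v k ω i ≤ P.v k ω i ∧ P.v k ω i < (rnd P).v k ω i + S.dl 1 k := by
  have hd := S.dl_pos 1 k
  have f1 := mul_le_mul_of_nonneg_left (Int.floor_le (P.v k ω i / S.dl 1 k)) hd.le
  have f2 := mul_lt_mul_of_pos_left (Int.lt_floor_add_one (P.v k ω i / S.dl 1 k)) hd
  have e1 : S.dl 1 k * (P.v k ω i / S.dl 1 k) = P.v k ω i := by field_simp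
  rw [e1] at f1 f2
  rw [mul_add, mul_one] at f2
  exact ⟨f1, f2⟩

theorem rnd_near (P : S.VV m) (k : ℕ) (ω : (S.F k).Ω) (i : Fin m) : |(rnd P).v k ω i - P.v k ω i| ≤ S.dl 1 k := by
  obtain ⟨h1, h2⟩ := rnd_le P k ω i
  rw [abs_le]
  constructor <;> linarith

theorem rnd_near' (P : S.VV m) (k : ℕ) (ω : (S.F k).Ω) (i : Fin m) : |P.v k ω i - (rnd P).v k ω i| ≤ S.dl 1 k := by
  rw [abs_sub_comm]
  exact rnd_near P k ω i

theorem rnd_cell (P : S.VV m) (k : ℕ) : (rnd P).cellv 1 k = P.cellv 1 k := by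
  funext ω i
  show ⌊S.dl 1 k * ((⌊P.v k ω i / S.dl 1 k⌋ : ℤ) : ℝ) / S.dl 1 k⌋ = ⌊P.v k ω i / S.dl 1 k⌋
  rw [mul_div_cancel_left₀ _ (S.dl_pos 1 k).ne', Int.floor_intCast]

theorem rnd_fn (P : S.VV m) {k : ℕ} {ω ω' : (S.F k).Ω} (h : P.cellv 1 k ω = P.cellv 1 k ω') :
    (rnd P).v k ω = (rnd P).v k ω' := by
  funext i
  have h1 : ⌊P.v k ω i / S.dl 1 k⌋ = ⌊P.v k ω' i / S.dl 1 k⌋ := congrFun h i
  show S.dl 1 k * ((⌊P.v k ω i / S.dl 1 k⌋ : ℤ) : ℝ) = S.dl 1 k * ((⌊P.v k ω' i / S.dl 1 k⌋ : ℤ) : ℝ)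
  rw [h1]

/-- the cells of the corners of level `b` -/
theorem rnd_cellb (P : S.VV m) {b : ℝ} (h1 : b ≤ 1) {ε : ℝ} (hε : 0 < ε) (B : ∀ k, Setoid (S.F k).Ω) :
    ∀ᶠ k in UF, (S.F k).e (Setoid.ker ((rnd P).cellv b k)) (Setoid.ker (P.cellv b k) ⊓ B k) ≤ ε * (S.F k).n := by
  filter_upwards [(S.div_n_tendsto (m * Real.logb 2 (4 + 1 + 1))).eventually (gt_mem_nhds hε)] with k hk
  have hn := (S.F k).pos
  have hd := S.dl_pos b k
  have h2 := S.dl_anti h1 k
  have h3 := (S.F k).e_int_le ((rnd P).cellv b k) (Setoid.ker (P.cellv b k) ⊓ B k) (4 + 1) (by norm_num)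
    (fun ω ω' _ _ h i => by
      have g1 : ⌊P.v k ω i / S.dl b k⌋ = ⌊P.v k ω' i / S.dl b k⌋ := congrFun h.1 i
      have g2 := abs_sub_le_of_floor_eq hd g1
      have g3 := rnd_near P k ω i
      have g4 := rnd_near' P k ω' i
      show |((⌊(rnd P).v k ω i / S.dl b k⌋ : ℤ) : ℝ) - (⌊(rnd P).v k ω' i / S.dl b k⌋ : ℤ)| ≤ 4 + 1
      apply floor_diff hd
      have g5 : (rnd P).v k ω i - (rnd P).v k ω' i = ((rnd P).v k ω i - P.v k ω i) + (P.v k ω i - P.v k ω' i) +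
        (P.v k ω' i - (rnd P).v k ω' i) := by ring
      rw [g5]
      refine (abs_add_three _ _ _).trans ?_
      linarith)
  rw [div_lt_iff₀ hn] at hk
  linarith

/-! ### transfer of the form to the corner -/

theorem Jq_00 (r : ℝ) (A : Matrix (Mon (v + 1) D) (Mon (v + 1) D) ℝ) (x : Fin (v + 1) → ℝ) :
    (Pi.single 0 1 : Fin (v + 1) → ℝ) ⬝ᵥ (Jq r A x *ᵥ (Pi.single 0 1 : Fin (v + 1) → ℝ)) = Jq r A x 0 0 := by
  rw [Matrix.mulVec_single_one, single_one_dotProduct]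
  rfl

theorem Jq_cor {A : Matrix (Mon (v + 1) D) (Mon (v + 1) D) ℝ} (hA : PdM A) {r : ℝ} (hr : 0 < r)
    {x y : Fin (v + 1) → ℝ} (h : ∀ i, |y i - x i| ≤ r) :
    1 + Jq r A y 0 0 ≤ cQ (v + 1) D * 2 ^ (2 * D) * ((1 + Jq r A x) 0 0) := by
  have h1 := Jq_comp' A hA r r 2 hr hr.le (by norm_num) x y (fun i => by have := h i; linarith)
    (Pi.single 0 1 : Fin (v + 1) → ℝ)
  rw [Jq_00, Jq_00] at h1
  have h2 := cQ_one (v + 1) D
  have h3 : (1 : ℝ) ≤ 2 ^ (2 * D) := one_le_pow₀ (by norm_num)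
  have h4 : (1 : ℝ) ≤ cQ (v + 1) D * 2 ^ (2 * D) := one_le_mul_of_one_le_of_one_le h2 h3
  have e1 : (1 + Jq r A x) 0 0 = 1 + Jq r A x 0 0 := by
    rw [Matrix.add_apply, Matrix.one_apply_eq]
  rw [e1, mul_add, mul_one]
  linarith

/-- **ONE CUT** -/
theorem one_cut {P : S.VV (v + 1)} {b : ℝ} (h0 : 0 < b) (h1 : b ≤ 1) (hD : 1 ≤ D) (V : ∀ k, Setoid (S.F k).Ω)
    (G : ∀ k, (S.F k).Ω → Matrix (Mon (v + 1) D) (Mon (v + 1) D) ℝ)
    (hG : ∀ k ω ω', V k ω ω' → (S.F k).Z ω ω' → G k ω = G k ω')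
    (pd : ∀ᶠ k in UF, ∀ ω, (S.F k).μ ω ≠ 0 → PdM (G k ω))
    (sm : ∀ η : ℝ, 0 < η → Typ (fun k ω => phi (S.dl 1 k) (G k ω) (P.v k ω) ≤ 2 ^ (η * (S.F k).n)))
    (big : ∀ η : ℝ, 0 < η → Typ (fun k ω => 2 ^ (2 * (b - η) * (S.F k).n) ≤
      1 + Jq (S.dl 1 k) (G k ω) (P.v k ω) 0 0))
    (full : b < 1 → ∀ ε : ℝ, 0 < ε → ∀ᶠ k in UF, (v - ε) * (S.F k).n ≤
      (S.F k).e (Setoid.ker ((tlv P).cellv 1 k)) (V k ⊓ (S.F k).Z))
    (hlf : b < 1 → ∀ ε : ℝ, 0 < ε → ∀ᶠ k in UF, (S.F k).e (Setoid.ker (P.cellv b k)) (V k ⊓ (S.F k).Z) ≤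
      (v * b + ε) * (S.F k).n) :
    ∃ (C : ∀ k, Setoid (S.F k).Ω) (R : ∀ k, (S.F k).Ω → MvPolynomial (Fin (v + 1)) ℝ) (K : ℕ → ℝ),
      (∀ k ω ω', P.cellv 1 k ω = P.cellv 1 k ω' → V k ω ω' → (S.F k).Z ω ω' → C k ω ω') ∧
      (∀ (B : ∀ k, Setoid (S.F k).Ω) (κ : ℝ), 0 < κ → ∀ᶠ k in UF, (S.F k).e (C k) (B k ⊓ (S.F k).Z) ≤ κ * (S.F k).n) ∧
      (∀ k ω ω', V k ω ω' → (S.F k).Z ω ω' → C k ω ω' → R k ω = R k ω') ∧
      (∀ k ω, (R k ω).totalDegree ≤ D) ∧ S.Sub K ∧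
      Typ (fun k ω => (∀ l, |MvPolynomial.eval (nodp D ((rnd P).v k ω) (S.dl b k) l) (R k ω)| ≤ 2) ∧
        ∃ l : Fin (v + 1) → Fin (D + 1), 1 ≤ K k * (S.dl b k *
          |MvPolynomial.eval (nodp D ((rnd P).v k ω) (S.dl b k) l) (MvPolynomial.pderiv 0 (R k ω))|)) := by
  classical
  set L : ℕ → ℕ := fun k => ⌈(D + 1) * (S.F k).n⌉₊ with hL
  set I : ∀ k, (S.F k).Ω → Rw (v + 1) D := fun k ω => rwi (G k ω) (S.dl 1 k) ((rnd P).v k ω) with hI
  set c : ∀ k, (S.F k).Ω → Fin 1 → ℤ := fun k ω _ =>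
    exz (G k ω) (S.dl 1 k) (S.dl b k) (L k) ((rnd P).v k ω) with hc
  set C : ∀ k, Setoid (S.F k).Ω := fun k => Setoid.ker (I k) ⊓ Setoid.ker (c k) with hC
  set R : ∀ k, (S.F k).Ω → MvPolynomial (Fin (v + 1)) ℝ := fun k ω => rwp (G k ω) (S.dl 1 k) (I k ω) (c k ω 0) with hR
  have hCfn : ∀ k ω ω', P.cellv 1 k ω = P.cellv 1 k ω' → V k ω ω' → (S.F k).Z ω ω' → C k ω ω' := by
    intro k ω ω' a b' d
    have e1 := hG k ω ω' b' d
    have e2 := rnd_fn P a
    refine ⟨?_, ?_⟩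
    · show rwi (G k ω) (S.dl 1 k) ((rnd P).v k ω) = rwi (G k ω') (S.dl 1 k) ((rnd P).v k ω')
      rw [e1, e2]
    · show (fun _ : Fin 1 => exz (G k ω) (S.dl 1 k) (S.dl b k) (L k) ((rnd P).v k ω)) =
        fun _ => exz (G k ω') (S.dl 1 k) (S.dl b k) (L k) ((rnd P).v k ω')
      rw [e1, e2]
  have hRfn : ∀ k ω ω', V k ω ω' → (S.F k).Z ω ω' → C k ω ω' → R k ω = R k ω' := by
    intro k ω ω' a b' d
    have e1 := hG k ω ω' a b'
    have e2 : I k ω = I k ω' := d.1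
    have e3 : c k ω = c k ω' := d.2
    show rwp (G k ω) (S.dl 1 k) (I k ω) (c k ω 0) = rwp (G k ω') (S.dl 1 k) (I k ω') (c k ω' 0)
    rw [e1, e2, e3]
  have hRd : ∀ k ω, (R k ω).totalDegree ≤ D := fun k ω => rwp_deg hD _ _ _ _
  -- the entropy of the code
  have hLs : S.Sub fun k => 2 * (L k : ℝ) := by
    have h2 : S.Sub fun k => 2 * ((D + 1) * (S.F k).n + 1) :=
      (S.Sub_const (by norm_num)).mul (((S.Sub_const (by positivity)).mul (Sub_n S)).add (S.Sub_const zero_le_one))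
    refine h2.mono (Eventually.of_forall fun k => by positivity) (Eventually.of_forall fun k => ?_)
    have hn := (S.F k).pos
    have h3 := Nat.ceil_lt_add_one (show (0 : ℝ) ≤ (D + 1) * (S.F k).n by positivity)
    have h4 : (L k : ℝ) < (D + 1) * (S.F k).n + 1 := h3
    linarith
  have hCe : ∀ (B : ∀ k, Setoid (S.F k).Ω) (κ : ℝ), 0 < κ → ∀ᶠ k in UF,
      (S.F k).e (C k) (B k ⊓ (S.F k).Z) ≤ κ * (S.F k).n := by
    intro B κ hκ
    filter_upwards [ent_fin I B (show 0 < κ / 2 by linarith), hLs.2.eventually (gt_mem_nhds (show 0 < κ / 2 by linarith))]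
      with k a1 a2
    have hn := (S.F k).pos
    have h2 := (S.F k).e_sup_le (Setoid.ker (I k)) (Setoid.ker (c k)) (B k ⊓ (S.F k).Z)
    have h3 := (S.F k).e_int_le (c k) (B k ⊓ (S.F k).Z) (2 * (L k : ℝ)) (by positivity) (fun ω ω' _ _ _ i => by
      have g1 := exz_abs (G k ω) (S.dl 1 k) (S.dl b k) (L k) ((rnd P).v k ω)
      have g2 := exz_abs (G k ω') (S.dl 1 k) (S.dl b k) (L k) ((rnd P).v k ω')
      refine (abs_sub _ _).trans ?_
      have g3 : |((c k ω i : ℤ) : ℝ)| ≤ L k := g1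
      have g4 : |((c k ω' i : ℤ) : ℝ)| ≤ L k := g2
      linarith)
    rw [Nat.cast_one, one_mul] at h3
    rw [div_lt_iff₀ hn] at a2
    have h4 : Real.logb 2 (2 * (L k : ℝ) + 1) ≤ Real.logb 2 (2 * (L k : ℝ) + 2) :=
      Real.logb_le_logb_of_le (by norm_num) (by positivity) (by linarith)
    show (S.F k).e (Setoid.ker (I k) ⊓ Setoid.ker (c k)) (B k ⊓ (S.F k).Z) ≤ _
    linarith
  -- the constants
  have hcQ := cQ_one (v + 1) D
  have hcP := cP_one (v + 1) D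
  obtain ⟨K1, hK1, hT1⟩ := typ_sub_le (S := S) (fun k ω => phi (S.dl 1 k) (G k ω) ((rnd P).v k ω)) (by
    intro e he
    refine typ_mono (sm (e / 2) (by linarith)) ?_
    filter_upwards [pd, ev_const S (cP (v + 1) D) (show 0 < e / 2 by linarith)] with k a1 a2 ω hω h2
    have h3 := phi_comp (G k ω) (a1 ω hω) (S.dl 1 k) (S.dl 1 k) 2 (S.dl_pos 1 k) (S.dl_pos 1 k).le (by norm_num)
      (P.v k ω) ((rnd P).v k ω) (fun i => by have := rnd_near P k ω i; linarith)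
    have h4 : phi (S.dl 1 k) (G k ω) ((rnd P).v k ω) ≤ cP (v + 1) D * phi (S.dl 1 k) (G k ω) (P.v k ω) := h3
    have h5 : (2 : ℝ) ^ (e * (S.F k).n) = 2 ^ (e / 2 * (S.F k).n) * 2 ^ (e / 2 * (S.F k).n) := by
      rw [← Real.rpow_add (by norm_num)]
      congr 1
      ring
    rw [h5]
    exact h4.trans (mul_le_mul a2 h2 (phi_nonneg _ (fun x => (a1 ω hω).nonneg x) _) (by positivity)))
  obtain ⟨K2, hK2, hK21, hT2⟩ := typ_sub_ge (S := S) (fun k ω => (1 + Jq (S.dl 1 k) (G k ω) ((rnd P).v k ω)) 0 0)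
    (2 * b) (by
    intro e he
    refine typ_mono (big (e / 4) (by linarith)) ?_
    filter_upwards [pd, ev_const S (cQ (v + 1) D * 2 ^ (2 * D)) (show 0 < e / 2 by linarith)] with k a1 a2 ω hω h2
    have h3 := Jq_cor (a1 ω hω) (S.dl_pos 1 k) (x := (rnd P).v k ω) (y := P.v k ω) (rnd_near' P k ω)
    have h4 : (2 : ℝ) ^ (2 * (b - e / 4) * (S.F k).n) = 2 ^ (e / 2 * (S.F k).n) * 2 ^ ((2 * b - e) * (S.F k).n) := by
      rw [← Real.rpow_add (by norm_num)]
      congr 1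
      ring
    rw [h4] at h2
    have h6 : 0 ≤ (1 + Jq (S.dl 1 k) (G k ω) ((rnd P).v k ω)) 0 0 := by
      by_contra h7
      push Not at h7
      have h8 : 1 + Jq (S.dl 1 k) (G k ω) (P.v k ω) 0 0 ≤ 0 := by
        refine h3.trans ?_
        have : 0 ≤ cQ (v + 1) D * 2 ^ (2 * D) := by positivity
        nlinarith
      have h9 : (0 : ℝ) < 2 ^ (e / 2 * (S.F k).n) * 2 ^ ((2 * b - e) * (S.F k).n) := by positivity
      linarith
    have h5 : (2 : ℝ) ^ (e / 2 * (S.F k).n) * 2 ^ ((2 * b - e) * (S.F k).n) ≤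
        2 ^ (e / 2 * (S.F k).n) * (1 + Jq (S.dl 1 k) (G k ω) ((rnd P).v k ω)) 0 0 :=
      h2.trans (h3.trans (mul_le_mul_of_nonneg_right a2 h6))
    exact le_of_mul_le_mul_left h5 (by positivity))
  obtain ⟨K3, hK3, hK3b⟩ := (rnd P).bd
  -- the inequality of Remez
  obtain ⟨K4, hK4, hT4⟩ : ∃ K4 : ℕ → ℝ, S.Sub K4 ∧ Typ (fun k ω => S.dl b k = S.dl 1 k ∨
      ∀ s : Fin v → ℝ, (∀ i, |s i - (rnd P).v k ω (Fin.succ i)| < S.dl b k) →
      |MvPolynomial.eval (Fin.cons (S.dl b k * ((⌊(rnd P).v k ω 0 / S.dl b k⌋ : ℤ) : ℝ)) s : Fin (v + 1) → ℝ) (R k ω)| ≤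
        K4 k * |MvPolynomial.eval (Fin.cons (S.dl b k * ((⌊(rnd P).v k ω 0 / S.dl b k⌋ : ℤ) : ℝ))
          (fun i => (rnd P).v k ω (Fin.succ i)) : Fin (v + 1) → ℝ) (R k ω)|) := by
    rcases h1.lt_or_eq with hb1 | hb1
    · set B : ∀ k, Setoid (S.F k).Ω := fun k => V k ⊓ (C k ⊓ Setoid.ker ((rnd P).cellv b k)) with hB
      set X : S.VV v := tlv (rnd P) with hX
      have hb' : 0 < 1 - b := by linarith
      -- fullness
      have hful : ∀ ε : ℝ, 0 < ε → ∀ᶠ k in UF, (v * (1 - b) - ε) * (S.F k).n ≤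
          (S.F k).e (Setoid.ker (X.cellv 1 k)) (B k ⊓ (S.F k).Z) := by
        intro ε hε
        filter_upwards [full hb1 (ε / 4) (by linarith), hlf hb1 (ε / 4) (by linarith),
          rnd_cellb P h1 (show 0 < ε / 4 by linarith) (fun k => V k ⊓ (S.F k).Z),
          hCe V (ε / 4) (by linarith)] with k a1 a2 a3 a4
        have e1 : X.cellv 1 k = (tlv P).cellv 1 k := by
          funext ω i
          exact congrFun (congrFun (rnd_cell P k) ω) i.succ
        rw [e1]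
        have g1 := (S.F k).e_triangle (Setoid.ker ((tlv P).cellv 1 k)) (C k ⊓ Setoid.ker ((rnd P).cellv b k))
          (V k ⊓ (S.F k).Z)
        have g2 := (S.F k).e_sup_le (C k) (Setoid.ker ((rnd P).cellv b k)) (V k ⊓ (S.F k).Z)
        have g3 := (S.F k).e_triangle (Setoid.ker ((rnd P).cellv b k)) (Setoid.ker (P.cellv b k)) (V k ⊓ (S.F k).Z)
        have e2 : (S.F k).e (Setoid.ker ((tlv P).cellv 1 k)) (B k ⊓ (S.F k).Z) =
            (S.F k).e (Setoid.ker ((tlv P).cellv 1 k)) (C k ⊓ Setoid.ker ((rnd P).cellv b k) ⊓ (V k ⊓ (S.F k).Z)) := by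
          apply FSp.e_congr_right
          intro ω ω' _ _
          exact ⟨fun h => ⟨h.1.2, h.1.1, h.2⟩, fun h => ⟨⟨h.2.1, h.1⟩, h.2.2⟩⟩
        rw [e2]
        have hn := (S.F k).pos
        nlinarith
      obtain ⟨K4, hK4, hT⟩ := cell_rem (D := D) X hb1 B (Eventually.of_forall fun k ω ω' _ _ _ h => by
          have h2 : (rnd P).cellv b k ω = (rnd P).cellv b k ω' := h.2.2
          funext i
          exact congrFun h2 i.succ) hful
        (fun k ω => MvPolynomial.bind₁ (Fin.cons (MvPolynomial.C (S.dl b k * ((⌊(rnd P).v k ω 0 / S.dl b k⌋ : ℤ) : ℝ)))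
          (fun i => MvPolynomial.X i) : Fin (v + 1) → MvPolynomial (Fin v) ℝ) (R k ω))
        (Eventually.of_forall fun k ω _ => by
          refine (totalDegree_bind_le (R k ω) _ 1 fun i => ?_).trans ?_
          · refine Fin.cases ?_ (fun i => ?_) i
            · show (MvPolynomial.C _).totalDegree ≤ 1
              rw [MvPolynomial.totalDegree_C]
              exact Nat.zero_le _
            · show (MvPolynomial.X i).totalDegree ≤ 1
              rw [MvPolynomial.totalDegree_X]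
          · rw [one_mul]
            exact hRd k ω)
        (Eventually.of_forall fun k ω ω' _ _ hZ h => by
          have e1 := hRfn k ω ω' h.1 hZ h.2.1
          have h2 : (rnd P).cellv b k ω = (rnd P).cellv b k ω' := h.2.2
          have e2 : ⌊(rnd P).v k ω 0 / S.dl b k⌋ = ⌊(rnd P).v k ω' 0 / S.dl b k⌋ := congrFun h2 0
          rw [e1, e2])
      refine ⟨K4, hK4, typ_mono hT (Eventually.of_forall fun k ω _ h2 => Or.inr fun s hs => ?_)⟩
      have h3 := h2 s hs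
      rw [ev_bind, ev_bind] at h3
      have e1 : ∀ (p : ℝ) (y : Fin v → ℝ), (fun i => MvPolynomial.eval y
          ((Fin.cons (MvPolynomial.C p) (fun i => MvPolynomial.X i) : Fin (v + 1) → MvPolynomial (Fin v) ℝ) i)) =
          (Fin.cons p y : Fin (v + 1) → ℝ) := by
        intro p y
        funext i
        refine Fin.cases ?_ (fun i => ?_) i
        · show MvPolynomial.eval y (MvPolynomial.C p) = p
          rw [MvPolynomial.eval_C]
        · show MvPolynomial.eval y (MvPolynomial.X i) = y i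
          rw [MvPolynomial.eval_X]
      rw [e1, e1] at h3
      exact h3
    · refine ⟨fun _ => 0, S.Sub_const le_rfl, typ_mono (S := S) (E := fun _ _ => True) Typ_true
        (Eventually.of_forall fun k ω _ _ => Or.inl ?_)⟩
      rw [hb1]
  -- the constant
  set K : ℕ → ℝ := fun k => K1 k + K2 k + K3 k + K4 k + 1 with hK
  have hKs : S.Sub K := (((hK1.add hK2).add hK3).add hK4).add (S.Sub_const zero_le_one)
  refine ⟨C, R, fun k => cO v D * K k ^ 3, hCfn, hCe, hRfn, hRd, ?_, ?_⟩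
  · have hcO : 0 ≤ cO v D := by
      have h2 := nn_one (v + 1) D
      have h3 := cV_pos v D
      unfold cO
      positivity
    have h2 : S.Sub fun k => cO v D * (K k * (K k * K k)) := (S.Sub_const hcO).mul (hKs.mul (hKs.mul hKs))
    refine h2.mono ?_ (Eventually.of_forall fun k => le_of_eq (by ring))
    filter_upwards [hKs.1] with k hk
    positivity
  · refine typ_mono (typ_and hT1 (typ_and hT2 hT4)) ?_
    have hnn := nn_one (v + 1) D
    have hCm := Cm_one (v + 1) D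
    have hCu := Cu_one D
    have hK2s : S.Sub fun k => K k * K k := hKs.mul hKs
    filter_upwards [pd, hK3b, hK1.1, hK2.1, hK3.1, hK4.1, hKs.eventually_le (show (0 : ℝ) < 1 / 2 by norm_num),
      ev_const S (nRw (v + 1) D * Cm (v + 1) D ^ 2) (show (0 : ℝ) < 1 / 2 by norm_num),
      hK2s.eventually_le (show (0 : ℝ) < 1 / 2 by norm_num),
      ev_const S (nn (v + 1) D * (Cu D * Cm (v + 1) D) ^ 2 * (nn (v + 1) D * (2 * cP (v + 1) D) ^ 2))
        (show (0 : ℝ) < 1 / 2 by norm_num)]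
      with k a1 a2 b1 b2 b3 b4 b5 b6 b7 b8 ω hω h2
    obtain ⟨t1, t2, t4⟩ := h2
    have hn := (S.F k).pos
    have hdl1 := S.dl_pos 1 k
    have hdlb := S.dl_pos b k
    have hdd := S.dl_anti h1 k
    have hdb1 : S.dl b k ≤ 1 := by
      have e0 : S.dl 0 k = 1 := S.dl_zero k
      rw [← e0]
      exact S.dl_anti h0.le k
    have hKk : K k = K1 k + K2 k + K3 k + K4 k + 1 := rfl
    have hK1' : 1 ≤ K k := by linarith
    have hL4 : (2 : ℝ) ^ (2 * ((D + 1) * (S.F k).n)) ≤ 4 ^ (L k) := by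
      have g1 : (D + 1) * (S.F k).n ≤ L k := Nat.le_ceil _
      have g2 : (4 : ℝ) ^ (L k) = 2 ^ (2 * (L k : ℝ)) := by
        rw [Real.rpow_mul (by norm_num), Real.rpow_natCast]
        norm_num
      rw [g2]
      exact Real.rpow_le_rpow_of_exponent_le (by norm_num) (by linarith)
    refine one_row hD (a1 ω hω) hdl1 hdd hdb1 hK1' (t1.trans (by linarith)) (fun i => (a2 ω hω i).trans (by linarith))
      ?_ (L := L k) ?_ ?_ (p := S.dl b k * ((⌊(rnd P).v k ω 0 / S.dl b k⌋ : ℤ) : ℝ)) ?_ ?_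
    · -- the gradient
      have g1 : S.dl b k ^ 2 * 2 ^ (2 * b * (S.F k).n) = 1 := by
        unfold Sp.dl
        rw [← Real.rpow_natCast, ← Real.rpow_mul (by norm_num), ← Real.rpow_add (by norm_num)]
        rw [show -(b * (S.F k).n) * ((2 : ℕ) : ℝ) + 2 * b * (S.F k).n = 0 by push_cast; ring, Real.rpow_zero]
      have g2 : S.dl b k ^ 2 * 2 ^ (2 * b * (S.F k).n) ≤
          S.dl b k ^ 2 * (K2 k * (1 + Jq (S.dl 1 k) (G k ω) ((rnd P).v k ω)) 0 0) :=
        mul_le_mul_of_nonneg_left t2 (by positivity)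
      rw [g1] at g2
      have g3 : 0 ≤ S.dl b k ^ 2 * (1 + Jq (S.dl 1 k) (G k ω) ((rnd P).v k ω)) 0 0 := by
        by_contra g4
        push Not at g4
        have g5 : S.dl b k ^ 2 * (K2 k * (1 + Jq (S.dl 1 k) (G k ω) ((rnd P).v k ω)) 0 0) =
          K2 k * (S.dl b k ^ 2 * (1 + Jq (S.dl 1 k) (G k ω) ((rnd P).v k ω)) 0 0) := by ring
        rw [g5] at g2
        nlinarith
      calc (1 : ℝ) ≤ S.dl b k ^ 2 * (K2 k * (1 + Jq (S.dl 1 k) (G k ω) ((rnd P).v k ω)) 0 0) := g2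
        _ = K2 k * (S.dl b k ^ 2 * (1 + Jq (S.dl 1 k) (G k ω) ((rnd P).v k ω)) 0 0) := by ring
        _ ≤ K k * (S.dl b k ^ 2 * (1 + Jq (S.dl 1 k) (G k ω) ((rnd P).v k ω)) 0 0) :=
          mul_le_mul_of_nonneg_right (by linarith) g3
    · -- the first condition of the code
      refine le_trans ?_ hL4
      have g1 : K k * nRw (v + 1) D * Cm (v + 1) D ^ 2 = K k * (nRw (v + 1) D * Cm (v + 1) D ^ 2) := by ring
      rw [g1]
      have g2 : K k ≤ 2 ^ (1 / 2 * (S.F k).n) := by linarith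
      refine (mul_le_mul g2 b6 (by positivity) (by positivity)).trans ?_
      rw [← Real.rpow_add (by norm_num)]
      apply Real.rpow_le_rpow_of_exponent_le (by norm_num)
      have : (0 : ℝ) ≤ D := Nat.cast_nonneg D
      nlinarith [mul_nonneg this hn.le]
    · -- the second condition of the code
      refine le_trans ?_ hL4
      have g1 : S.dl b k / S.dl 1 k ≤ 2 ^ ((S.F k).n) := by
        rw [div_eq_mul_inv, Pool.Agent.Helper89.LX.inv_dl_one]
        exact mul_le_of_le_one_left (by positivity) hdb1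
      have g2 : ((S.dl b k / S.dl 1 k) ^ D) ^ 2 ≤ 2 ^ (2 * D * (S.F k).n) := by
        have g3 : (2 : ℝ) ^ (2 * D * (S.F k).n) = ((2 ^ ((S.F k).n)) ^ D) ^ 2 := by
          rw [← pow_mul, ← Real.rpow_natCast, ← Real.rpow_mul (by norm_num)]
          congr 1
          push_cast
          ring
        rw [g3]
        exact pow_le_pow_left₀ (by positivity) (pow_le_pow_left₀ (by positivity) g1 D) 2
      have g4 : nn (v + 1) D * (Cu D * Cm (v + 1) D * (S.dl b k / S.dl 1 k) ^ D) ^ 2 *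
          (nn (v + 1) D * Pool.Agent.Helper76.PUR.cW (v + 1) D (K k) ^ 2) =
          (nn (v + 1) D * (Cu D * Cm (v + 1) D) ^ 2 * (nn (v + 1) D * (2 * cP (v + 1) D) ^ 2)) *
            ((K k * K k) * ((S.dl b k / S.dl 1 k) ^ D) ^ 2) := by
        unfold Pool.Agent.Helper76.PUR.cW
        ring
      rw [g4]
      have g5 : K k * K k ≤ 2 ^ (1 / 2 * (S.F k).n) := by linarith
      refine (mul_le_mul b8 (mul_le_mul g5 g2 (by positivity) (by positivity)) (by positivity) (by positivity)).trans ?_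
      rw [← Real.rpow_add (by norm_num), ← Real.rpow_add (by norm_num)]
      apply Real.rpow_le_rpow_of_exponent_le (by norm_num)
      nlinarith
    · -- the corner of level `b`
      have g1 := Int.floor_le ((rnd P).v k ω 0 / S.dl b k)
      have g2 := Int.lt_floor_add_one ((rnd P).v k ω 0 / S.dl b k)
      rw [le_div_iff₀ hdlb] at g1
      rw [div_lt_iff₀ hdlb, add_mul, one_mul] at g2
      rw [abs_le]
      constructor <;> linarith
    · rcases t4 with t4 | t4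
      · exact Or.inl t4
      · refine Or.inr fun s hs => (t4 s hs).trans ?_
        exact mul_le_mul_of_nonneg_right (by linarith) (abs_nonneg _)

end

end Pool.Agent.Helper18.PSH
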