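import Pool.Agent.Helper18.PSH.Cut
import Pool.Agent.Helper87.NSL.Aux2
import Pool.Agent.Helper63.MT.Imu

/-! [CUTN]: a cut of exponent `b` gives a K-form of the truncation at the level `b` whose volume is at most `v`. -/

set_option autoImplicit false

namespace Pool.Agent.Helper18.PSH

open Finset Filter Topology Matrix Pool.Agent.Helper69.RK Pool.Agent.Helper31.EC Pool.Agent.Helper31.EC.Sp
open Pool.Agent.Helper40.EL Pool.Agent.Helper89.LX Pool.Agent.Helper3.LF Pool.Agent.Helper84.MT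
open Pool.Agent.Helper95.LF (PdM)
open Pool.Agent.Helper49.KL (LF kz_ofZ)
open Pool.Agent.Helper66.MT (capg capg_Cpd capg_eq)
open Pool.Agent.Helper76.RL (cP cP_one)
open Pool.Agent.Helper76.DIM (pck CutF tlv)
open Pool.Agent.Helper76.ADP
open Pool.Agent.Helper38.PUR (LK)
open Pool.Agent.Helper87.NSL (cndR hlf_of_cut)
open Pool.Agent.Helper93.NSL (ev_const LK.trn0 lfc lfc_adf cap_typ)
open Pool.Agent.Helper14.MC (vol_eq vx gx vx_UB vx_nonneg)

noncomputable section

variable {S : Sp} {N M m v D g r : ℕ} {ι : Type}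

/-! ### invariant versions -/

open Classical in
/-- the invariant version of a function -/
def ivr {Ω β : Type} (μ : Ω → ℝ) (V : Setoid Ω) (G : Ω → β) (d : β) (ω : Ω) : β :=
  (fun s : Set Ω => if h : s.Nonempty then G h.some else d) {ω' | μ ω' ≠ 0 ∧ V ω ω'}

theorem ivr_fn {Ω β : Type} {μ : Ω → ℝ} {V : Setoid Ω} {G : Ω → β} {d : β} {ω ω' : Ω} (h : V ω ω') :
    ivr μ V G d ω = ivr μ V G d ω' := by
  have h1 : {x | μ x ≠ 0 ∧ V ω x} = {x | μ x ≠ 0 ∧ V ω' x} := by
    ext x
    exact ⟨fun h2 => ⟨h2.1, V.trans' (V.symm' h) h2.2⟩, fun h2 => ⟨h2.1, V.trans' h h2.2⟩⟩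
  unfold ivr
  rw [h1]

theorem ivr_eq {Ω β : Type} {μ : Ω → ℝ} {V : Setoid Ω} {G : Ω → β} {d : β}
    (hG : ∀ ω ω', μ ω ≠ 0 → μ ω' ≠ 0 → V ω ω' → G ω = G ω') {ω : Ω} (h : μ ω ≠ 0) : ivr μ V G d ω = G ω := by
  classical
  have h1 : ({x | μ x ≠ 0 ∧ V ω x} : Set Ω).Nonempty := ⟨ω, h, V.refl' ω⟩
  have h2 := h1.some_mem
  have e1 : ivr μ V G d ω = G h1.some := dif_pos h1
  rw [e1]
  exact (hG _ _ h h2.1 h2.2).symm

/-! ### finite meets -/

/-- the meet of the partitions of the set `s` -/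
@[instance_reducible]
def aln (C : Fin N → ∀ k, Setoid (S.F k).Ω) (s : Finset (Fin N)) (k : ℕ) : Setoid (S.F k).Ω where
  r ω ω' := ∀ p ∈ s, C p k ω ω'
  iseqv := ⟨fun ω p _ => (C p k).refl' ω, fun h p hp => (C p k).symm' (h p hp),
    fun h h' p hp => (C p k).trans' (h p hp) (h' p hp)⟩

theorem aln_PLe {C : Fin N → ∀ k, Setoid (S.F k).Ω} {A : Part S} (s : Finset (Fin N))
    (hC : ∀ p ∈ s, PLe (fun k => fc (C p k)) A) : PLe (fun k => fc (aln C s k)) A := by
  classical
  induction s using Finset.induction_on with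
  | empty =>
    apply PLe_of_le
    intro k
    refine le_trans (fc_le (B := ⊤) fun ω ω' _ _ _ _ p hp => absurd hp (Finset.notMem_empty p)) ?_
    exact bot_le
  | insert a s ha ih =>
    have h1 : PLe (fun k => fc (C a k) ⊔ fc (aln C s k)) A :=
      PLe.sup_le (hC a (Finset.mem_insert_self a s)) (ih fun p hp => hC p (Finset.mem_insert_of_mem hp))
    refine PLe.trans (PLe_of_le fun k => ?_) h1
    rw [← fc_inf]
    apply fc_le
    intro ω ω' _ _ _ h p hp
    rcases Finset.mem_insert.mp hp with rfl | h2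
    · exact h.1
    · exact h.2 p h2

theorem PLe_of_e {C : ∀ k, Setoid (S.F k).Ω} (h : ∀ (B : ∀ k, Setoid (S.F k).Ω) (κ : ℝ), 0 < κ → ∀ᶠ k in UF,
    (S.F k).e (C k) (B k ⊓ (S.F k).Z) ≤ κ * (S.F k).n) (A : Part S) : PLe (fun k => fc (C k)) A := by
  have h1 : ∀ k, ∃ B : Setoid (S.F k).Ω, fc B = A k := fun k =>
    fc_ind (p := fun x => ∃ B : Setoid (S.F k).Ω, fc B = x) (fun B => ⟨B, rfl⟩) (A k)
  choose B hB using h1
  show Tendsto _ _ _
  rw [Metric.tendsto_nhds]
  intro ε hε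
  filter_upwards [h B (ε / 2) (by linarith)] with k hk
  have hn := (S.F k).pos
  rw [Real.dist_eq, sub_zero, ← hB k, h_fc, abs_of_nonneg (div_nonneg ((S.F k).e_nonneg _ _) hn.le), div_lt_iff₀ hn]
  nlinarith

/-! ### the volume -/

/-- a typical lower bound of the gradient determinant -/
theorem vol_le_of {Q : S.VV M} {κ : Type} {A : κ → Part S} {L : LF S (Mon M D)} (hL : (gaq Q D).Adf A L.fd) {u : ℝ}
    (hu : 0 ≤ u) (hg : ∀ η : ℝ, 0 < η → Typ (fun k ω => (2 : ℝ) ^ (2 * (u - η) * (S.F k).n) ≤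
      GQ (S.dl 1 k) (L.G k ω) (Q.v k ω))) : vol Q D L.fd ≤ M - u := by
  classical
  rw [vol_eq]
  have key : ∀ η : ℝ, 0 < η → u - 2 * η ≤ ul (vx Q L.fd) := by
    intro η hη
    rcases le_or_gt u η with hc | hc
    · refine le_trans (by linarith : u - 2 * η ≤ 0) ?_
      exact const_le_ul (vx_UB hL) (vx_nonneg hL)
    · have hT : Tendsto (fun k => mass (res (S.F k).μ (fun ω => ¬ ((2 : ℝ) ^ (2 * (u - η) * (S.F k).n) ≤
          GQ (S.dl 1 k) (L.G k ω) (Q.v k ω))))) UF (𝓝 0) := hg η hη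
      apply const_le_ul (vx_UB hL)
      filter_upwards [hT.eventually (gt_mem_nhds (show 0 < η / (u + 1) by positivity)), hL 1 one_pos] with k a b
      have hn := (S.F k).pos
      set E : (S.F k).Ω → Prop := fun ω => (2 : ℝ) ^ (2 * (u - η) * (S.F k).n) ≤ GQ (S.dl 1 k) (L.G k ω) (Q.v k ω) with hE
      have h1 : ∀ ω, (u - η) * ((S.F k).μ ω - res (S.F k).μ (fun ω => ¬ E ω) ω) ≤
          (S.F k).μ ω * gx Q k ω (L.G k ω) := by
        intro ω
        by_cases h0 : (S.F k).μ ω = 0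
        · have e1 : res (S.F k).μ (fun ω => ¬ E ω) ω = 0 := by
            unfold res
            split_ifs
            · exact h0
            · rfl
          rw [e1, h0, sub_zero, mul_zero, zero_mul]
        · have hc' := (b.2.1 ω h0).1
          have h3 : 1 ≤ GQ (S.dl 1 k) (L.G k ω) (Q.v k ω) := one_le_GQ _ hc'.1 (fun x => hc'.psd.2 x) _
          have h4 := (S.F k).nn ω
          by_cases hE0 : E ω
          · have e1 : res (S.F k).μ (fun ω => ¬ E ω) ω = 0 := by
              unfold res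
              rw [if_neg (not_not.mpr hE0)]
            rw [e1, sub_zero, mul_comm]
            refine mul_le_mul_of_nonneg_left ?_ h4
            unfold gx
            have h5 := Real.logb_le_logb_of_le (b := 2) (by norm_num) (by positivity) hE0
            rw [Real.logb_rpow (by norm_num) (by norm_num)] at h5
            rw [le_div_iff₀ (by positivity)]
            linarith
          · have e1 : res (S.F k).μ (fun ω => ¬ E ω) ω = (S.F k).μ ω := by
              unfold res
              rw [if_pos hE0]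
            rw [e1, sub_self, mul_zero]
            refine mul_nonneg h4 ?_
            unfold gx
            exact div_nonneg (Real.logb_nonneg (by norm_num) h3) (by positivity)
      have h2 : (u - η) * (1 - mass (res (S.F k).μ (fun ω => ¬ E ω))) ≤ vx Q L.fd k := by
        show _ ≤ ∑ ω, (S.F k).μ ω * gx Q k ω (L.G k ω)
        refine le_trans (le_of_eq ?_) (Finset.sum_le_sum fun ω _ => h1 ω)
        rw [← Finset.mul_sum, Finset.sum_sub_distrib]
        have e1 : ∑ ω, (S.F k).μ ω = 1 := (S.F k).ms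
        rw [e1]
        rfl
      refine le_trans ?_ h2
      set q := mass (res (S.F k).μ (fun ω => ¬ E ω)) with hq
      have h3 : q * (u + 1) < η := by
        rwa [lt_div_iff₀ (by positivity)] at a
      have h4 : 0 ≤ q := mass_res_nonneg k _
      nlinarith
  by_contra hc
  push Not at hc
  have h1 := key ((u - ul (vx Q L.fd)) / 4) (by linarith)
  linarith

/-! ### the extension of nodes -/

theorem cons_inj {σ : Fin v → Fin N} (hσ : Function.Injective σ) {p : Fin N} (hp : ∀ i, σ i ≠ p) :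
    Function.Injective (Fin.cons p σ : Fin (v + 1) → Fin N) := by
  rw [Fin.cons_injective_iff]
  exact ⟨fun ⟨i, hi⟩ => hp i hi, hσ⟩

theorem nodp_ext {n : ℕ} {τ : Fin n → Fin N} (hτ : Function.Injective τ) (x : Fin N → ℝ) (ρ : ℝ)
    (l : Fin n → Fin (D + 1)) :
    (nodp D x ρ (Function.extend τ l (fun _ => 0) : Fin N → Fin (D + 1))) ∘ τ = nodp D (x ∘ τ) ρ l := by
  funext i
  have e1 : (Function.extend τ l (fun _ => 0) : Fin N → Fin (D + 1)) (τ i) = l i := hτ.extend_apply _ _ _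
  exact congrArg (fun j : Fin (D + 1) => x (τ i) + ρ * nod D j) e1

theorem nodp_cmp {n : ℕ} (τ : Fin n → Fin N) (x : Fin N → ℝ) (ρ : ℝ) (l : Fin N → Fin (D + 1)) :
    (nodp D x ρ l) ∘ τ = nodp D (x ∘ τ) ρ (l ∘ τ) := rfl

theorem pd_ren0 {n : ℕ} (τ : Fin n → Fin N) {a : Fin N} (ha : ∀ i, τ i ≠ a) (q : MvPolynomial (Fin n) ℝ) :
    MvPolynomial.pderiv a (MvPolynomial.rename τ q) = 0 := by
  classical
  apply MvPolynomial.pderiv_eq_zero_of_notMem_vars
  intro h
  have h1 := MvPolynomial.vars_rename τ q h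
  obtain ⟨i, -, hi⟩ := Finset.mem_image.mp h1
  exact ha i hi

theorem eval_ren {n : ℕ} (τ : Fin n → Fin N) (x : Fin N → ℝ) (q : MvPolynomial (Fin n) ℝ) :
    MvPolynomial.eval x (MvPolynomial.rename τ q) = MvPolynomial.eval (x ∘ τ) q := MvPolynomial.eval_rename _ _ _

theorem ar4 {κ : Type} (s : Finset κ) (K d : κ → ℝ) {ρ c X : ℝ} (hρ : 0 < ρ)
    (h : ∀ p, p ∈ s → 1 ≤ K p * (ρ * |d p|)) (hX : ∏ p ∈ s, d p ^ 2 ≤ c * X) :
    1 ≤ (c * ((∏ p ∈ s, K p) * (∏ p ∈ s, K p))) * ((ρ ^ s.card) ^ 2 * X) := by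
  have h7 : 1 ≤ ∏ p ∈ s, (K p * (ρ * |d p|)) := by
    have h1 := Finset.prod_le_prod (s := s) (f := fun _ : κ => (1 : ℝ)) (g := fun p => K p * (ρ * |d p|))
      (fun _ _ => zero_le_one) (fun p hp => h p hp)
    rwa [Finset.prod_const_one] at h1
  have h8 : ∏ p ∈ s, (K p * (ρ * |d p|)) = (∏ p ∈ s, K p) * (ρ ^ s.card * ∏ p ∈ s, |d p|) := by
    rw [Finset.prod_mul_distrib, Finset.prod_mul_distrib, Finset.prod_const]
  rw [h8] at h7
  have h9 : (∏ p ∈ s, |d p|) ^ 2 = ∏ p ∈ s, d p ^ 2 := by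
    rw [← Finset.prod_pow]
    exact Finset.prod_congr rfl fun p _ => sq_abs _
  have h10 : 1 ≤ ((∏ p ∈ s, K p) * (∏ p ∈ s, K p)) * ((ρ ^ s.card) ^ 2 * ∏ p ∈ s, d p ^ 2) := by
    have g1 := one_le_pow₀ (n := 2) h7
    rw [← h9]
    refine g1.trans (le_of_eq ?_)
    ring
  refine h10.trans ?_
  have h11 : ((∏ p ∈ s, K p) * (∏ p ∈ s, K p)) * ((ρ ^ s.card) ^ 2 * ∏ p ∈ s, d p ^ 2) ≤
      ((∏ p ∈ s, K p) * (∏ p ∈ s, K p)) * ((ρ ^ s.card) ^ 2 * (c * X)) :=
    mul_le_mul_of_nonneg_left (mul_le_mul_of_nonneg_left hX (by positivity)) (mul_self_nonneg _)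
  refine h11.trans (le_of_eq ?_)
  ring

theorem ar5 {Y X m η n : ℝ} (hX : 0 ≤ X) (hY : Y ≤ 2 ^ (2 * η * n)) (h : 1 ≤ Y * (2 ^ (-(2 * m * n)) * X)) :
    (2 : ℝ) ^ (2 * (m - η) * n) ≤ X := by
  have h1 : (1 : ℝ) ≤ 2 ^ (2 * η * n) * (2 ^ (-(2 * m * n)) * X) :=
    h.trans (mul_le_mul_of_nonneg_right hY (by positivity))
  have h2 : (2 : ℝ) ^ (2 * (m - η) * n) * (2 ^ (2 * η * n) * (2 ^ (-(2 * m * n)) * X)) = X := by
    rw [← mul_assoc, ← mul_assoc, ← Real.rpow_add (by norm_num), ← Real.rpow_add (by norm_num)]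
    rw [show 2 * (m - η) * n + 2 * η * n + -(2 * m * n) = 0 by ring, Real.rpow_zero, one_mul]
  calc (2 : ℝ) ^ (2 * (m - η) * n) ≤ 2 ^ (2 * (m - η) * n) * (2 ^ (2 * η * n) * (2 ^ (-(2 * m * n)) * X)) :=
        le_mul_of_one_le_right (by positivity) h1
    _ = X := h2

/-- **[CUTN]** -/
theorem cutn {s : MSys S N (lin g) (Fin r)} {R V : ∀ k, Setoid (S.F k).Ω} {σ : Fin v → Fin N} {b : ℝ} (h0 : 0 < b)
    (h1 : b ≤ 1) {G : Fin N → ∀ k, (S.F k).Ω → Matrix (Mon (v + 1) D) (Mon (v + 1) D) ℝ} (hD : 1 ≤ D)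
    (hLK : LK s R V) (hR : ∀ᶠ k in UF, R k ⊓ (S.F k).Z ≤ Setoid.ker (s.Q.cellv 1 k)) (hC : CutF V s.Q σ b D G) :
    ∃ x : ∀ k, FD ((S.chg S.tr b h0).F k) (Mon N D),
      (gaq (s.trn b h0 h1).Q D).AdfK (LC.kz (S := S.chg S.tr b h0) fun k => fc (R k)) (cndR (s.trn b h0 h1) R 0) x ∧
      vol (s.trn b h0 h1).Q D x ≤ v := by
  classical
  -- the cuts
  have key : ∀ p : Fin N, ∃ (C : ∀ k, Setoid (S.F k).Ω) (P : ∀ k, (S.F k).Ω → MvPolynomial (Fin (v + 1)) ℝ)
      (K : ℕ → ℝ), (∀ i, σ i ≠ p) →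
      (∀ k ω ω', s.Q.cellv 1 k ω = s.Q.cellv 1 k ω' → V k ω ω' → (S.F k).Z ω ω' → C k ω ω') ∧
      (∀ (B : ∀ k, Setoid (S.F k).Ω) (κ : ℝ), 0 < κ → ∀ᶠ k in UF, (S.F k).e (C k) (B k ⊓ (S.F k).Z) ≤ κ * (S.F k).n) ∧
      (∀ k ω ω', V k ω ω' → (S.F k).Z ω ω' → C k ω ω' → P k ω = P k ω') ∧
      (∀ k ω, (P k ω).totalDegree ≤ D) ∧ S.Sub K ∧
      Typ (fun k ω => (∀ l, |MvPolynomial.eval (nodp D ((rnd (pck s.Q (Fin.cons p σ : Fin (v + 1) → Fin N))).v k ω)
          (S.dl b k) l) (P k ω)| ≤ 2) ∧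
        ∃ l : Fin (v + 1) → Fin (D + 1), 1 ≤ K k * (S.dl b k *
          |MvPolynomial.eval (nodp D ((rnd (pck s.Q (Fin.cons p σ : Fin (v + 1) → Fin N))).v k ω) (S.dl b k) l)
            (MvPolynomial.pderiv 0 (P k ω))|)) := by
    intro p
    by_cases hp : ∀ i, σ i ≠ p
    · set G2 : ∀ k, (S.F k).Ω → Matrix (Mon (v + 1) D) (Mon (v + 1) D) ℝ := fun k =>
        ivr (S.F k).μ (V k ⊓ (S.F k).Z) (G p k) 1 with hG2
      have hev : ∀ᶠ k in UF, ∀ ω, (S.F k).μ ω ≠ 0 → G2 k ω = G p k ω := by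
        filter_upwards [hC.ms p hp] with k hk ω hω
        exact ivr_eq (V := V k ⊓ (S.F k).Z) (fun ω ω' a b' c => hk ω ω' a b' c.2 c.1) hω
      obtain ⟨C, P, K, c1, c2, c3, c4, c5, c6⟩ := one_cut (P := pck s.Q (Fin.cons p σ : Fin (v + 1) → Fin N)) h0 h1 hD V
        G2 (fun k ω ω' a b' => ivr_fn ⟨a, b'⟩) (by
          filter_upwards [hev, hC.pd p hp] with k a b' ω hω
          rw [a ω hω]
          exact b' ω hω) (fun η hη => by
          refine typ_mono (hC.sm p hp η hη) ?_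
          filter_upwards [hev] with k a ω hω h2
          rw [a ω hω]
          exact h2) (fun η hη => by
          refine typ_mono (hC.big p hp η hη) ?_
          filter_upwards [hev] with k a ω hω h2
          rw [a ω hω]
          exact h2) (fun _ ε hε => by
          filter_upwards [hC.full.eventually (lt_mem_nhds (show (v : ℝ) - ε < v by linarith))] with k hk
          have hn := (S.F k).pos
          rw [lt_div_iff₀ hn, h_fc] at hk
          exact hk.le) (fun hb1 ε hε => by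
          filter_upwards [hlf_of_cut h0 hb1 hD hC ε hε] with k hk
          rw [h_fc] at hk
          refine le_trans ?_ hk
          apply FSp.e_mono
          intro ω ω' _ _ h2 _
          have h3 : s.Q.cellv b k ω = s.Q.cellv b k ω' := h2
          funext i
          exact congrFun h3 ((Fin.cons p σ : Fin (v + 1) → Fin N) i))
      refine ⟨C, P, K, fun _ => ⟨fun k ω ω' a b' c => c1 k ω ω' ?_ b' c, c2, c3, c4, c5, c6⟩⟩
      funext i
      exact congrFun a ((Fin.cons p σ : Fin (v + 1) → Fin N) i)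
    · exact ⟨fun _ => ⊤, fun _ _ => 0, fun _ => 0, fun h => absurd h hp⟩
  choose C P K hcut using key
  set s0 : Finset (Fin N) := Finset.univ.filter (fun p => ∀ i, σ i ≠ p) with hs0
  have hmem : ∀ p, p ∈ s0 ↔ ∀ i, σ i ≠ p := fun p => by
    rw [hs0, Finset.mem_filter]
    exact ⟨fun h => h.2, fun h => ⟨Finset.mem_univ _, h⟩⟩
  have hcard : (s0.card : ℝ) = N - v := by
    have h2 : s0 = (Finset.univ.image σ)ᶜ := by
      ext p
      rw [hmem, Finset.mem_compl, Finset.mem_image]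
      constructor
      · rintro h3 ⟨i, -, hi⟩
        exact h3 i hi
      · intro h3 i hi
        exact h3 ⟨i, Finset.mem_univ _, hi⟩
    have h3 : (Finset.univ.image σ).card = v := by
      rw [Finset.card_image_of_injective _ hC.inj, Finset.card_univ, Fintype.card_fin]
    have h4 := Finset.card_compl_add_card (Finset.univ.image σ)
    rw [h3, Fintype.card_fin, ← h2] at h4
    have h5 : ((s0.card + v : ℕ) : ℝ) = N := by exact_mod_cast h4
    push_cast at h5
    linarith
  -- the label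
  set W : ∀ k, Setoid (S.F k).Ω := fun k => V k ⊓ aln C s0 k with hW
  have hLKW : LK s R W := by
    refine ⟨?_, ?_⟩
    · filter_upwards [hLK.1, hR] with k a b' ω ω' h2
      refine ⟨a h2, fun p hp => ?_⟩
      exact (hcut p ((hmem p).mp hp)).1 k ω ω' (b' h2) (a h2) h2.2
    · have h2 := hLK.2
      rw [Lab.ofZ_DMf] at h2 ⊢
      intro i
      have h3 := PLe.sup_le (h2 i) (aln_PLe (C := C) (A := cndR s R 0 i) s0 fun p hp =>
        PLe_of_e (hcut p ((hmem p).mp hp)).2.1 _)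
      exact h3
  -- the rows
  set ψ : ∀ k, (S.F k).Ω → Fin N → MvPolynomial (Fin N) ℝ := fun k ω p =>
    if p ∈ s0 then MvPolynomial.rename (Fin.cons p σ : Fin (v + 1) → Fin N) (P p k ω) else 0 with hψ
  set t : Fin N → ℝ := fun p => if p ∈ s0 then 1 else 0 with ht
  set A : ∀ k, (S.F k).Ω → Matrix (Mon N D) (Mon N D) ℝ := fun k ω => Brt D t (ψ k ω) 0 with hA
  have hψd : ∀ k ω p, (ψ k ω p).totalDegree ≤ D := by
    intro k ω p
    show (if p ∈ s0 then MvPolynomial.rename (Fin.cons p σ : Fin (v + 1) → Fin N) (P p k ω) else 0).totalDegree ≤ D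
    split_ifs with hp
    · exact (MvPolynomial.totalDegree_rename_le _ _).trans ((hcut p ((hmem p).mp hp)).2.2.2.1 k ω)
    · rw [MvPolynomial.totalDegree_zero]
      exact Nat.zero_le _
  have hA1 : ∀ k ω, (A k ω).IsSymm ∧ ∀ y, y ⬝ᵥ y ≤ qf (A k ω) y := fun k ω =>
    ⟨Brt_symm _ _ _, fun y => Brt_one _ _ _ y⟩
  have hApd : ∀ k ω, PdM (A k ω) := fun k ω => pdM_of_one_le (hA1 k ω).1 (hA1 k ω).2
  set T : Sp := S.chg S.tr b h0 with hT
  have hTdl : ∀ k, T.dl 1 k = S.dl b k := fun k => by rw [hT, chg_dl, mul_one]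
  have hm : ∀ k (ω ω' : (T.F k).Ω), (T.F k).μ ω ≠ 0 → (T.F k).μ ω' ≠ 0 → W k ω ω' → (T.F k).Z ω ω' →
      A k ω = A k ω' := by
    intro k ω ω' _ _ c d
    have h2 : ψ k ω = ψ k ω' := by
      funext p
      show (if p ∈ s0 then MvPolynomial.rename (Fin.cons p σ : Fin (v + 1) → Fin N) (P p k ω) else 0) =
        if p ∈ s0 then MvPolynomial.rename (Fin.cons p σ : Fin (v + 1) → Fin N) (P p k ω') else 0
      split_ifs with hp
      · rw [(hcut p ((hmem p).mp hp)).2.2.1 k ω ω' c.1 d.2 (c.2 p hp)]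
      · rfl
    show Brt D t (ψ k ω) 0 = Brt D t (ψ k ω') 0
    rw [h2]
  -- the typical event
  have hTyp : Typ (S := S) (fun k ω => ∀ p, p ∈ s0 →
      ((∀ l, |MvPolynomial.eval (nodp D ((rnd (pck s.Q (Fin.cons p σ : Fin (v + 1) → Fin N))).v k ω)
          (S.dl b k) l) (P p k ω)| ≤ 2) ∧
        ∃ l : Fin (v + 1) → Fin (D + 1), 1 ≤ K p k * (S.dl b k *
          |MvPolynomial.eval (nodp D ((rnd (pck s.Q (Fin.cons p σ : Fin (v + 1) → Fin N))).v k ω) (S.dl b k) l)
            (MvPolynomial.pderiv 0 (P p k ω))|))) := by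
    apply Pool.Agent.Helper63.MT.typ_all
    intro p
    by_cases hp : p ∈ s0
    · exact typ_mono (hcut p ((hmem p).mp hp)).2.2.2.2.2 (Eventually.of_forall fun k ω _ h2 _ => h2)
    · exact typ_mono (S := S) (E := fun _ _ => True) Typ_true (Eventually.of_forall fun k ω _ _ h2 => absurd h2 hp)
  obtain ⟨K0, hK0, hQ⟩ := (rnd s.Q).bd
  -- the size
  set KK : ℕ → ℝ := fun k => cP N D * (nn N D * Fintype.card (Mon N D) * (K0 k + 1) ^ (2 * D) +
      Fintype.card (Fin N → Fin (D + 1)) * (N * 4)) with hKK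
  have hKKs : S.Sub KK := by
    have h2 := cP_one N D
    have h3 := nn_one N D
    exact (S.Sub_const (by positivity)).mul (((S.Sub_const (by positivity)).mul
      (Sub_pow' (hK0.add (S.Sub_const zero_le_one)) (2 * D))).add (S.Sub_const (by positivity)))
  have hφT : Typ (S := T) (fun k ω => (gaq (s.trn b h0 h1).Q D).φ k ω (A k ω) ≤ KK k) := by
    have hTyp' : Typ (S := T) (fun k ω => ∀ p, p ∈ s0 →
      ((∀ l, |MvPolynomial.eval (nodp D ((rnd (pck s.Q (Fin.cons p σ : Fin (v + 1) → Fin N))).v k ω)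
          (S.dl b k) l) (P p k ω)| ≤ 2) ∧
        ∃ l : Fin (v + 1) → Fin (D + 1), 1 ≤ K p k * (S.dl b k *
          |MvPolynomial.eval (nodp D ((rnd (pck s.Q (Fin.cons p σ : Fin (v + 1) → Fin N))).v k ω) (S.dl b k) l)
            (MvPolynomial.pderiv 0 (P p k ω))|))) := hTyp
    refine typ_mono hTyp' ?_
    filter_upwards [hQ, hK0.1] with k a b' ω hω h2
    have hdb := S.dl_pos b k
    have hdb1 : S.dl b k ≤ 1 := by
      have e0 : S.dl 0 k = 1 := S.dl_zero k
      rw [← e0]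
      exact S.dl_anti h0.le k
    show phi (T.dl 1 k) (A k ω) (s.Q.v k ω) ≤ KK k
    rw [hTdl]
    have h3 := phi_comp (A k ω) (hApd k ω) (S.dl b k) (S.dl b k) 2 hdb hdb.le (by norm_num) ((rnd s.Q).v k ω)
      (s.Q.v k ω) (fun i => by
        have g1 := rnd_near' s.Q k ω i
        have g2 := S.dl_anti h1 k
        linarith)
    refine h3.trans ?_
    have h4 : phi (S.dl b k) (A k ω) ((rnd s.Q).v k ω) ≤ nn N D * Fintype.card (Mon N D) * (K0 k + 1) ^ (2 * D) +
        Fintype.card (Fin N → Fin (D + 1)) * (N * 4) := by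
      apply Brt_phi t (ψ k ω) 0 (hψd k ω) hdb.le (by linarith) _ (fun i => by
        have := a ω hω i
        linarith)
      intro j l
      by_cases hj : j ∈ s0
      · have e1 : t j = 1 := if_pos hj
        have e2 : ψ k ω j = MvPolynomial.rename (Fin.cons j σ : Fin (v + 1) → Fin N) (P j k ω) := if_pos hj
        rw [e1, e2, one_mul, eval_ren, nodp_cmp, Pi.zero_apply, sub_zero]
        have h5 := (h2 j hj).1 (l ∘ (Fin.cons j σ : Fin (v + 1) → Fin N))
        have h6 : |MvPolynomial.eval (nodp D (((rnd s.Q).v k ω) ∘ (Fin.cons j σ : Fin (v + 1) → Fin N)) (S.dl b k)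
            (l ∘ (Fin.cons j σ : Fin (v + 1) → Fin N))) (P j k ω)| ≤ 2 := h5
        rw [← sq_abs]
        have h7 := pow_le_pow_left₀ (abs_nonneg _) h6 2
        linarith
      · have e1 : t j = 0 := if_neg hj
        rw [e1, zero_mul]
        norm_num
    exact mul_le_mul_of_nonneg_left h4 (by have := cP_one N D; positivity)
  -- the form
  have hLKT := LK.trn0 hLKW h0 h1
  have hKKT : T.Sub KK := chg_sub S.tr b h0 hKKs
  set L : LF T (Mon N D) := lfc (gaq (s.trn b h0 h1).Q D) W A hm with hL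
  have hLa : (gaq (s.trn b h0 h1).Q D).Adf (cndR (s.trn b h0 h1) R 0) L.fd :=
    lfc_adf (gaq (s.trn b h0 h1).Q D) W A hm (Eventually.of_forall fun k ω _ => hA1 k ω) hKKT hφT hLKT.2
  have hcap := cap_typ (gaq (s.trn b h0 h1).Q D) A (Eventually.of_forall fun k ω _ => hA1 k ω) hKKT hφT
  refine ⟨L.fd, ⟨hLa, kz_ofZ hLKT.1⟩, ?_⟩
  have hv : vol (s.trn b h0 h1).Q D L.fd ≤ N - (N - v : ℝ) := by
    apply vol_le_of hLa
    · rw [← hcard]
      exact Nat.cast_nonneg _
    · intro η hη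
      have hTyp' : Typ (S := T) (fun k ω => ∀ p, p ∈ s0 →
        ((∀ l, |MvPolynomial.eval (nodp D ((rnd (pck s.Q (Fin.cons p σ : Fin (v + 1) → Fin N))).v k ω)
            (S.dl b k) l) (P p k ω)| ≤ 2) ∧
          ∃ l : Fin (v + 1) → Fin (D + 1), 1 ≤ K p k * (S.dl b k *
            |MvPolynomial.eval (nodp D ((rnd (pck s.Q (Fin.cons p σ : Fin (v + 1) → Fin N))).v k ω) (S.dl b k) l)
              (MvPolynomial.pderiv 0 (P p k ω))|))) := hTyp
      refine typ_mono (typ_and hcap hTyp') ?_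
      have hKs : T.Sub fun k => (cQ N D ^ N * 2 ^ (2 * D * N)) * ((∏ p ∈ s0, K p k) * (∏ p ∈ s0, K p k)) := by
        have h2 : ∀ s1 : Finset (Fin N), s1 ⊆ s0 → S.Sub fun k => ∏ p ∈ s1, K p k := by
          intro s1
          induction s1 using Finset.induction_on with
          | empty =>
            intro _
            refine (S.Sub_const zero_le_one).mono (Eventually.of_forall fun k => ?_) (Eventually.of_forall fun k => ?_)
            · rw [Finset.prod_empty]
              exact zero_le_one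
            · rw [Finset.prod_empty]
          | insert a s1 ha ih =>
            intro h3
            have h4 := (hcut a ((hmem a).mp (h3 (Finset.mem_insert_self a s1)))).2.2.2.2.1.mul
              (ih fun p hp => h3 (Finset.mem_insert_of_mem hp))
            refine h4.mono ?_ (Eventually.of_forall fun k => ?_)
            · filter_upwards [h4.1] with k hk
              rw [Finset.prod_insert ha]
              exact hk
            · rw [Finset.prod_insert ha]
        have h3 := h2 s0 (Finset.Subset.refl _)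
        have h4 := cQ_one N D
        exact chg_sub S.tr b h0 ((S.Sub_const (by positivity)).mul (h3.mul h3))
      filter_upwards [hKs.eventually_le (show 0 < 2 * η by linarith)] with k a ω hω h2
      obtain ⟨h2, h3⟩ := h2
      have hdb := S.dl_pos b k
      have e4 : L.G k ω = A k ω := capg_eq h2
      rw [e4, hTdl]
      have h4 : ∀ p, ∃ l : Fin (v + 1) → Fin (D + 1), p ∈ s0 → 1 ≤ K p k * (S.dl b k *
            |MvPolynomial.eval (nodp D ((rnd (pck s.Q (Fin.cons p σ : Fin (v + 1) → Fin N))).v k ω) (S.dl b k) l)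
              (MvPolynomial.pderiv 0 (P p k ω))|) := by
        intro p
        by_cases hp : p ∈ s0
        · obtain ⟨l, hl⟩ := (h3 p hp).2
          exact ⟨l, fun _ => hl⟩
        · exact ⟨fun _ => 0, fun h => absurd h hp⟩
      choose l hl using h4
      -- the determinant
      have h5 := GQ_rows (D := D) (s := s0) (t := t) (ψ := ψ k ω) (c := 0) (hψd k ω) (fun p hp => if_pos hp)
        (fun p hp a ha hap => by
          have e2 : ψ k ω p = MvPolynomial.rename (Fin.cons p σ : Fin (v + 1) → Fin N) (P p k ω) := if_pos hp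
          rw [e2]
          apply pd_ren0
          intro i
          refine Fin.cases ?_ (fun i => ?_) i
          · exact fun h => hap h.symm
          · exact (hmem a).mp ha i) (S.dl b k) ((rnd s.Q).v k ω)
        (fun p => (Function.extend (Fin.cons p σ : Fin (v + 1) → Fin N) (l p) (fun _ => 0) : Fin N → Fin (D + 1)))
      have h6 : ∀ p ∈ s0, MvPolynomial.eval (nodp D ((rnd s.Q).v k ω) (S.dl b k)
          (Function.extend (Fin.cons p σ : Fin (v + 1) → Fin N) (l p) (fun _ => 0) : Fin N → Fin (D + 1)))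
            (MvPolynomial.pderiv p (ψ k ω p)) =
          MvPolynomial.eval (nodp D ((rnd (pck s.Q (Fin.cons p σ : Fin (v + 1) → Fin N))).v k ω) (S.dl b k) (l p))
              (MvPolynomial.pderiv 0 (P p k ω)) := by
        intro p hp
        have hinj := cons_inj hC.inj ((hmem p).mp hp)
        have e2 : ψ k ω p = MvPolynomial.rename (Fin.cons p σ : Fin (v + 1) → Fin N) (P p k ω) := if_pos hp
        have e3 : MvPolynomial.pderiv p (MvPolynomial.rename (Fin.cons p σ : Fin (v + 1) → Fin N) (P p k ω)) =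
            MvPolynomial.rename (Fin.cons p σ : Fin (v + 1) → Fin N) (MvPolynomial.pderiv 0 (P p k ω)) :=
          MvPolynomial.pderiv_rename hinj 0 (P p k ω)
        rw [e2, e3, eval_ren, nodp_ext hinj]
        rfl
      rw [Finset.prod_congr rfl fun p hp => congrArg (fun z : ℝ => z ^ 2) (h6 p hp)] at h5
      set d : Fin N → ℝ := fun p => MvPolynomial.eval (nodp D ((rnd (pck s.Q (Fin.cons p σ : Fin (v + 1) → Fin N))).v k ω)
        (S.dl b k) (l p)) (MvPolynomial.pderiv 0 (P p k ω)) with hd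
      have h11 := GQ_comp (A k ω) (hApd k ω) (S.dl b k) (S.dl b k) 2 hdb hdb.le (by norm_num) (s.Q.v k ω)
        ((rnd s.Q).v k ω) (fun i => by
          have g1 := rnd_near s.Q k ω i
          have g2 := S.dl_anti h1 k
          linarith)
      have hGQ : 0 ≤ GQ (S.dl b k) (A k ω) (s.Q.v k ω) :=
        zero_le_one.trans (one_le_GQ _ (hA1 k ω).1 (fun y => (hApd k ω).nonneg y) _)
      have h12 := ar4 s0 (fun p => K p k) d hdb hl (h5.trans h11)
      have e5 : (T.F k).n = b * (S.F k).n := rfl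
      have e6 : (S.dl b k ^ s0.card) ^ 2 = 2 ^ (-(2 * (N - v : ℝ) * (T.F k).n)) := by
        rw [← hcard, e5]
        unfold Sp.dl
        rw [← pow_mul, ← Real.rpow_natCast, ← Real.rpow_mul (by norm_num)]
        congr 1
        push_cast
        ring
      rw [e6] at h12
      exact ar5 hGQ (le_trans (by linarith) a) h12
  rw [sub_sub_cancel] at hv
  exact hv

end

end Pool.Agent.Helper18.PSH
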