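import Pool.Agent.Helper18.PSH.Cutn
import Pool.Agent.Helper38.NJ.Zer2

/-! [CUTN] for type-labels. -/

set_option autoImplicit false

namespace Pool.Agent.Helper18.PSH

open Filter Topology Pool.Agent.Helper69.RK Pool.Agent.Helper31.EC Pool.Agent.Helper31.EC.Sp
open Pool.Agent.Helper29.MX Pool.Agent.Helper38.NJ

/-- [CUTN] for type-labels -/
theorem st_cutn0 : ST_CUTN0 := by
  intro S N g r v s V σ b h0 h1 D G _ hD hLK hC
  obtain ⟨x, hx, hv⟩ := cutn h0 h1 hD hLK (Eventually.of_forall fun k ω ω' h => by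
    have h2 : ω = ω' := h.1
    rw [h2]) hC
  exact ⟨x, hx, hv⟩

end Pool.Agent.Helper18.PSH
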