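import Pool.Agent.Helper18.PSH.Cell
import Pool.Agent.Helper76.ADP.Prf

/-! ONE ROW OF A FORM: the best row in the direction `0`, rescaled to size one on the large cell. -/

set_option autoImplicit false

namespace Pool.Agent.Helper18.PSH

open MvPolynomial Matrix
open Pool.Agent.Helper95.LF (PdM)
open Pool.Agent.Helper3.LF Pool.Agent.Helper84.MT
open Pool.Agent.Helper76.THK (nodp_zero)
open Pool.Agent.Helper76.ADP
open Pool.Agent.Helper76.RL (fam fam_deg Rw cP cP_one)
open Pool.Agent.Helper76.DIM (fac)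
open Pool.Agent.Helper76.PUR (rows_bd cW cW_one nRw)

noncomputable section

variable {v D : ℕ}

/-- the best row in the direction `0` -/
def rwi (A : Matrix (Mon (v + 1) D) (Mon (v + 1) D) ℝ) (r : ℝ) (x : Fin (v + 1) → ℝ) : Rw (v + 1) D := by
  classical
  exact if h : PdM A then (row_sel h r x 0).choose else Sum.inr 0

theorem rwi_spec {A : Matrix (Mon (v + 1) D) (Mon (v + 1) D) ℝ} (hA : PdM A) (r : ℝ) (x : Fin (v + 1) → ℝ) :
    (1 + Jq r A x) 0 0 ≤ nRw (v + 1) D * (eval x (pderiv 0 (fam (fac A) r (rwi A r x)))) ^ 2 := by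
  have e1 : rwi A r x = (row_sel hA r x 0).choose := by
    unfold rwi
    rw [dif_pos hA]
  rw [e1]
  exact (row_sel hA r x 0).choose_spec

/-- the exponent of the size on the large cell -/
def exz (A : Matrix (Mon (v + 1) D) (Mon (v + 1) D) ℝ) (r rb : ℝ) (L : ℕ) (x : Fin (v + 1) → ℝ) : ℤ :=
  max (-(L : ℤ)) (min (L : ℤ) ⌊Real.logb 2 (ph D (fam (fac A) r (rwi A r x)) rb x) / 2⌋)

theorem exz_abs (A : Matrix (Mon (v + 1) D) (Mon (v + 1) D) ℝ) (r rb : ℝ) (L : ℕ) (x : Fin (v + 1) → ℝ) :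
    |((exz A r rb L x : ℤ) : ℝ)| ≤ L := by
  have h1 : -(L : ℤ) ≤ exz A r rb L x := le_max_left _ _
  have h2 : exz A r rb L x ≤ L := max_le (by omega) (min_le_left _ _)
  have h3 : -((L : ℤ) : ℝ) ≤ ((exz A r rb L x : ℤ) : ℝ) := by exact_mod_cast h1
  have h4 : ((exz A r rb L x : ℤ) : ℝ) ≤ ((L : ℤ) : ℝ) := by exact_mod_cast h2
  rw [abs_le]
  exact ⟨by simpa using h3, by simpa using h4⟩

/-- the rescaled row -/
def rwp (A : Matrix (Mon (v + 1) D) (Mon (v + 1) D) ℝ) (r : ℝ) (I : Rw (v + 1) D) (c : ℤ) :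
    MvPolynomial (Fin (v + 1)) ℝ := C ((2 : ℝ) ^ (-(c : ℝ))) * fam (fac A) r I

theorem rwp_deg (hD : 1 ≤ D) (A : Matrix (Mon (v + 1) D) (Mon (v + 1) D) ℝ) (r : ℝ) (I : Rw (v + 1) D) (c : ℤ) :
    (rwp A r I c).totalDegree ≤ D := by
  unfold rwp
  refine (totalDegree_mul _ _).trans ?_
  rw [totalDegree_C, zero_add]
  exact fam_deg hD _ _ _

theorem ph_C (a : ℝ) (q : MvPolynomial (Fin (v + 1)) ℝ) (r : ℝ) (x : Fin (v + 1) → ℝ) :
    ph D (C a * q) r x = a ^ 2 * ph D q r x := by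
  unfold ph
  rw [Finset.mul_sum]
  refine Finset.sum_congr rfl fun j _ => ?_
  rw [map_mul, eval_C, mul_pow]

theorem ar1 {n P K : ℝ} (hn : 1 ≤ n) (hK : 1 ≤ K) : n * (2 * P * K) ^ 2 ≤ (6 * n * P * K ^ 2) ^ 2 := by
  have g1 : n ≤ n ^ 2 := by nlinarith
  have g3 : 1 ≤ K ^ 2 := one_le_pow₀ hK
  have g2 : K ^ 2 ≤ (K ^ 2) ^ 2 := by nlinarith
  have h0 : 0 ≤ n ^ 2 * P ^ 2 * (K ^ 2) ^ 2 := by positivity
  calc n * (2 * P * K) ^ 2 = n * (4 * P ^ 2) * K ^ 2 := by ring
    _ ≤ n ^ 2 * (4 * P ^ 2) * (K ^ 2) ^ 2 := by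
        apply mul_le_mul (mul_le_mul_of_nonneg_right g1 (by positivity)) g2 (by positivity) (by positivity)
    _ = 4 * (n ^ 2 * P ^ 2 * (K ^ 2) ^ 2) := by ring
    _ ≤ 36 * (n ^ 2 * P ^ 2 * (K ^ 2) ^ 2) := by linarith
    _ = (6 * n * P * K ^ 2) ^ 2 := by ring

theorem ar2 {K : ℝ} (hK : 1 ≤ K) : K + 1 ≤ 2 * K ^ 3 := by
  have h1 : 1 ≤ K ^ 2 := one_le_pow₀ hK
  have h2 : K ≤ K ^ 3 := by
    have : K ^ 3 = K * K ^ 2 := by ring
    rw [this]
    exact le_mul_of_one_le_right (by linarith) h1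
  linarith

theorem ar3 {y T : ℝ} (hy : 0 ≤ y) (hT : 1 ≤ T) (h1 : T * y < 1) (h2 : 1 ≤ T * y ^ 2) : False := by
  have h3 : y ≤ T * y := le_mul_of_one_le_left hy hT
  have h4 : y * y ≤ y * 1 := mul_le_mul_of_nonneg_left (by linarith) hy
  have h5 : T * (y * y) ≤ T * (y * 1) := mul_le_mul_of_nonneg_left h4 (by linarith)
  have h6 : T * y ^ 2 = T * (y * y) := by ring
  rw [h6] at h2
  linarith

/-- the constant of a row -/
def cO (v D : ℕ) : ℝ := 6 * nn (v + 1) D * cP (v + 1) D * nRw (v + 1) D + 4 * nn (v + 1) D * cV v D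

/-- **ONE ROW** -/
theorem one_row (hD : 1 ≤ D) {A : Matrix (Mon (v + 1) D) (Mon (v + 1) D) ℝ} (hA : PdM A) {r rb K : ℝ} (hr : 0 < r)
    (hrb : r ≤ rb) (hb1 : rb ≤ 1) (hK : 1 ≤ K) {x : Fin (v + 1) → ℝ} (hφ : phi r A x ≤ K) (hx : ∀ i, |x i| ≤ K)
    (hbig : 1 ≤ K * (rb ^ 2 * (1 + Jq r A x) 0 0)) {L : ℕ}
    (hL1 : K * nRw (v + 1) D * Cm (v + 1) D ^ 2 ≤ 4 ^ L)
    (hL2 : nn (v + 1) D * (Cu D * Cm (v + 1) D * (rb / r) ^ D) ^ 2 * (nn (v + 1) D * cW (v + 1) D K ^ 2) ≤ 4 ^ L)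
    {p : ℝ} (hp : |p - x 0| ≤ rb) (hR : rb = r ∨ ∀ s : Fin v → ℝ, (∀ i, |s i - x i.succ| < rb) →
      |eval (Fin.cons p s : Fin (v + 1) → ℝ) (rwp A r (rwi A r x) (exz A r rb L x))| ≤
        K * |eval (Fin.cons p (fun i => x i.succ) : Fin (v + 1) → ℝ) (rwp A r (rwi A r x) (exz A r rb L x))|) :
    (∀ l, |eval (nodp D x rb l) (rwp A r (rwi A r x) (exz A r rb L x))| ≤ 2) ∧
      ∃ l : Fin (v + 1) → Fin (D + 1), 1 ≤ cO v D * K ^ 3 *
        (rb * |eval (nodp D x rb l) (pderiv 0 (rwp A r (rwi A r x) (exz A r rb L x)))|) := by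
  set f := fam (fac A) r (rwi A r x) with hf
  have hrb0 : 0 < rb := hr.trans_le hrb
  have hfd : f.totalDegree ≤ D := fam_deg hD _ _ _
  have hnn := nn_one (v + 1) D
  have hCm := Cm_one (v + 1) D
  have hCu := Cu_one D
  have hcW := cW_one (v + 1) D hK
  have hcP := cP_one (v + 1) D
  have hcV := cV_pos v D
  have hK0 : 0 < K := by linarith
  have hN1 : (1 : ℝ) ≤ nRw (v + 1) D := by
    have : 0 < nRw (v + 1) D := Fintype.card_pos_iff.mpr ⟨Sum.inr 0⟩
    exact_mod_cast this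
  -- the derivative
  have hder : 1 ≤ K * nRw (v + 1) D * (rb * |eval x (pderiv 0 f)|) ^ 2 := by
    have h1 := rwi_spec hA r x
    rw [← hf] at h1
    have h2 : K * (rb ^ 2 * (1 + Jq r A x) 0 0) ≤ K * (rb ^ 2 * (nRw (v + 1) D * (eval x (pderiv 0 f)) ^ 2)) :=
      mul_le_mul_of_nonneg_left (mul_le_mul_of_nonneg_left h1 (by positivity)) hK0.le
    refine hbig.trans (h2.trans (le_of_eq ?_))
    rw [mul_pow, sq_abs]
    ring
  -- the sizes
  set sz := ph D f rb x with hsz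
  have hsz0 : 0 ≤ sz := ph_nonneg _ _ _
  have hlow : 1 ≤ K * nRw (v + 1) D * Cm (v + 1) D ^ 2 * sz := by
    have h1 := der_le f hfd rb 1 hrb0 le_rfl x x (fun i => by
      rw [sub_self, abs_zero, one_mul]
      exact hrb0.le) 0
    rw [one_pow, mul_one] at h1
    have h2 : (rb * |eval x (pderiv 0 f)|) ^ 2 ≤ Cm (v + 1) D ^ 2 * sz := by
      rw [mul_pow, sq_abs]
      exact h1
    refine hder.trans ?_
    have h3 : 0 ≤ K * nRw (v + 1) D := by positivity
    calc K * nRw (v + 1) D * (rb * |eval x (pderiv 0 f)|) ^ 2 ≤ K * nRw (v + 1) D * (Cm (v + 1) D ^ 2 * sz) :=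
          mul_le_mul_of_nonneg_left h2 h3
      _ = _ := by ring
  have hszp : 0 < sz := by
    rcases hsz0.lt_or_eq with h1 | h1
    · exact h1
    · rw [← h1, mul_zero] at hlow
      linarith
  have hrd : ∀ l, |eval (nodp D x r l) f| ≤ cW (v + 1) D K :=
    rows_bd hA hr (hrb.trans hb1) hK x hφ hx (rwi A r x)
  have hphr : ph D f r x ≤ nn (v + 1) D * cW (v + 1) D K ^ 2 := by
    unfold ph
    refine (Finset.sum_le_card_nsmul _ _ (cW (v + 1) D K ^ 2) fun l _ => ?_).trans (le_of_eq ?_)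
    · rw [← sq_abs]
      exact pow_le_pow_left₀ (abs_nonneg _) (hrd l) 2
    · rw [nsmul_eq_mul, card_nodes]
  have hrr : 1 ≤ rb / r := (one_le_div hr).mpr hrb
  have hup : sz ≤ nn (v + 1) D * (Cu D * Cm (v + 1) D * (rb / r) ^ D) ^ 2 * (nn (v + 1) D * cW (v + 1) D K ^ 2) := by
    have h1 := ph_comp f hfd r rb (rb / r) hr hrb0.le hrr x x (fun i => by
      rw [sub_self, abs_zero, zero_add, div_mul_cancel₀ _ hr.ne'])
    exact h1.trans (mul_le_mul_of_nonneg_left hphr (by positivity))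
  -- the exponent
  set c : ℤ := exz A r rb L x with hc
  have h4 : ∀ L : ℕ, Real.logb 2 ((4 : ℝ) ^ L) = 2 * L := by
    intro L
    have e1 : ((4 : ℝ) ^ L) = 2 ^ ((2 : ℝ) * L) := by
      rw [Real.rpow_mul (by norm_num), Real.rpow_natCast]
      norm_num
    rw [e1, Real.logb_rpow (by norm_num) (by norm_num)]
  have hcv : c = ⌊Real.logb 2 sz / 2⌋ := by
    have h1 : Real.logb 2 sz / 2 ≤ L := by
      have h2 := Real.logb_le_logb_of_le (b := 2) (by norm_num) hszp (hup.trans hL2)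
      rw [h4] at h2
      linarith
    have h2 : -(L : ℝ) ≤ Real.logb 2 sz / 2 := by
      have h3 : ((4 : ℝ) ^ L)⁻¹ ≤ sz := by
        rw [inv_le_iff_one_le_mul₀' (by positivity)]
        exact hlow.trans (mul_le_mul_of_nonneg_right hL1 hszp.le)
      have h5 := Real.logb_le_logb_of_le (b := 2) (by norm_num) (by positivity) h3
      rw [Real.logb_inv, h4] at h5
      linarith
    have h3 : ⌊Real.logb 2 sz / 2⌋ ≤ (L : ℤ) := by
      have h5 : ((⌊Real.logb 2 sz / 2⌋ : ℤ) : ℝ) ≤ ((L : ℤ) : ℝ) := (Int.floor_le _).trans (by simpa using h1)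
      exact_mod_cast h5
    have h5 : -(L : ℤ) ≤ ⌊Real.logb 2 sz / 2⌋ := by
      apply Int.le_floor.mpr
      push_cast
      exact h2
    rw [hc]
    unfold exz
    rw [← hf, ← hsz, min_eq_right h3, max_eq_right h5]
  have hc1 : 2 * (c : ℝ) ≤ Real.logb 2 sz := by
    have h1 := Int.floor_le (Real.logb 2 sz / 2)
    rw [← hcv] at h1
    linarith
  have hc2 : Real.logb 2 sz < 2 * (c : ℝ) + 2 := by
    have h1 := Int.lt_floor_add_one (Real.logb 2 sz / 2)
    rw [← hcv] at h1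
    linarith
  set a : ℝ := (2 : ℝ) ^ (-(c : ℝ)) with ha
  have ha0 : 0 < a := by positivity
  have ha2 : a ^ 2 = 2 ^ (-(2 * (c : ℝ))) := by
    rw [ha, ← Real.rpow_natCast, ← Real.rpow_mul (by norm_num)]
    congr 1
    push_cast
    ring
  have hszl : sz = 2 ^ (Real.logb 2 sz) := (Real.rpow_logb (by norm_num) (by norm_num) hszp).symm
  have hp0 : a ^ 2 * sz = 2 ^ (-(2 * (c : ℝ)) + Real.logb 2 sz) := by
    rw [Real.rpow_add (by norm_num), ← hszl, ha2]
  have hp1 : 1 ≤ a ^ 2 * sz := by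
    rw [hp0]
    exact Real.one_le_rpow (by norm_num) (by linarith)
  have hp2 : a ^ 2 * sz ≤ 4 := by
    rw [hp0]
    calc (2 : ℝ) ^ (-(2 * (c : ℝ)) + Real.logb 2 sz) ≤ 2 ^ (2 : ℝ) :=
          Real.rpow_le_rpow_of_exponent_le (by norm_num) (by linarith)
      _ = 4 := by norm_num
  have eq1 : rwp A r (rwi A r x) c = C a * f := rfl
  rw [eq1] at hR ⊢
  set q : MvPolynomial (Fin (v + 1)) ℝ := C a * f with hq
  have hqd : q.totalDegree ≤ D := by
    rw [hq]
    refine (totalDegree_mul _ _).trans ?_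
    rw [totalDegree_C, zero_add]
    exact hfd
  have hphq : ph D q rb x = a ^ 2 * sz := by
    rw [hq, ph_C]
  refine ⟨fun l => ?_, ?_⟩
  · have h1 : (eval (nodp D x rb l) q) ^ 2 ≤ 4 := by
      refine le_trans ?_ (hphq.le.trans hp2)
      exact Finset.single_le_sum (f := fun j => (eval (nodp D x rb j) q) ^ 2) (fun _ _ => sq_nonneg _)
        (Finset.mem_univ l)
    apply abs_le_of_sq_le_sq _ (by norm_num)
    linarith
  · -- the value
    have hfx : |eval x f| ≤ cW (v + 1) D K := by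
      have h1 := hrd fun _ => 0
      rwa [nodp_zero] at h1
    have hqx : |eval x q| = a * |eval x f| := by
      rw [hq, map_mul, eval_C, abs_mul, abs_of_pos ha0]
    have hqd0 : |eval x (pderiv 0 q)| = a * |eval x (pderiv 0 f)| := by
      rw [hq, pderiv_C_mul, map_mul, eval_C, abs_mul, abs_of_pos ha0]
    set κ : ℝ := 6 * nn (v + 1) D * cP (v + 1) D * K ^ 2 with hκ
    have hκ0 : 0 < κ := by positivity
    have hcWK : cW (v + 1) D K = 2 * cP (v + 1) D * K := rfl
    have hKK : K ≤ K ^ 2 := by nlinarith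
    by_cases hcase : 1 ≤ κ * a
    · -- the scale is tame
      refine ⟨fun _ => 0, ?_⟩
      rw [nodp_zero, hqd0]
      have h1 : 1 ≤ K * nRw (v + 1) D * (rb * |eval x (pderiv 0 f)|) := by
        by_contra hcon
        push Not at hcon
        set y : ℝ := rb * |eval x (pderiv 0 f)| with hy
        have hy0 : 0 ≤ y := by positivity
        exact ar3 hy0 (one_le_mul_of_one_le_of_one_le hK hN1) hcon hder
      have h2 : κ * a * (K * nRw (v + 1) D * (rb * |eval x (pderiv 0 f)|)) ≤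
          cO v D * K ^ 3 * (rb * (a * |eval x (pderiv 0 f)|)) := by
        have h3 : κ * a * (K * nRw (v + 1) D * (rb * |eval x (pderiv 0 f)|)) =
            (6 * nn (v + 1) D * cP (v + 1) D * nRw (v + 1) D) * K ^ 3 * (rb * (a * |eval x (pderiv 0 f)|)) := by
          rw [hκ]
          ring
        rw [h3]
        apply mul_le_mul_of_nonneg_right _ (by positivity)
        apply mul_le_mul_of_nonneg_right _ (by positivity)
        unfold cO
        have : 0 ≤ 4 * nn (v + 1) D * cV v D := by positivity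
        linarith
      exact (one_le_mul_of_one_le_of_one_le hcase h1).trans h2
    · -- the value at the point is tiny
      push Not at hcase
      have hne : rb ≠ r := by
        intro h1
        apply absurd hcase
        push Not
        -- the size on the small cell
        have h2 : sz ≤ nn (v + 1) D * cW (v + 1) D K ^ 2 := by
          rw [hsz, h1]
          exact hphr
        have h3 : 1 ≤ a ^ 2 * (nn (v + 1) D * cW (v + 1) D K ^ 2) :=
          hp1.trans (mul_le_mul_of_nonneg_left h2 (by positivity))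
        have h5 : nn (v + 1) D * cW (v + 1) D K ^ 2 ≤ κ ^ 2 := by
          rw [hκ, hcWK]
          exact ar1 hnn hK
        have h6 : 1 ≤ (κ * a) ^ 2 := by
          refine h3.trans ?_
          rw [mul_pow, mul_comm]
          exact mul_le_mul_of_nonneg_right h5 (by positivity)
        exact (one_le_sq_iff₀ (by positivity)).mp h6
      have hR' := hR.resolve_left hne
      have hx1 : 2 * nn (v + 1) D * K * |eval x q| < 1 := by
        rw [hqx]
        refine lt_of_le_of_lt ?_ hcase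
        have h1 : 2 * nn (v + 1) D * K * (a * |eval x f|) ≤ 2 * nn (v + 1) D * K * (a * cW (v + 1) D K) :=
          mul_le_mul_of_nonneg_left (mul_le_mul_of_nonneg_left hfx ha0.le) (by positivity)
        refine h1.trans ?_
        rw [hcWK, hκ]
        have h2 : 0 ≤ nn (v + 1) D * cP (v + 1) D * K ^ 2 * a := by positivity
        have h3 : 2 * nn (v + 1) D * K * (a * (2 * cP (v + 1) D * K)) =
            4 * (nn (v + 1) D * cP (v + 1) D * K ^ 2 * a) := by ring
        have h5 : 6 * nn (v + 1) D * cP (v + 1) D * K ^ 2 * a = 6 * (nn (v + 1) D * cP (v + 1) D * K ^ 2 * a) := by ring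
        rw [h3, h5]
        linarith
      obtain ⟨l, hl⟩ := big_node hqd hrb0 hp hK0.le hR' (by rw [hphq]; exact hp1) hx1
      refine ⟨l, hl.trans ?_⟩
      apply mul_le_mul_of_nonneg_right _ (by positivity)
      unfold cO
      have h1 : K + 1 ≤ 2 * K ^ 3 := ar2 hK
      calc 2 * nn (v + 1) D * (K + 1) * cV v D = 2 * nn (v + 1) D * cV v D * (K + 1) := by ring
        _ ≤ 2 * nn (v + 1) D * cV v D * (2 * K ^ 3) := mul_le_mul_of_nonneg_left h1 (by positivity)
        _ = (4 * nn (v + 1) D * cV v D) * K ^ 3 := by ring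
        _ ≤ _ := by
          apply mul_le_mul_of_nonneg_right _ (by positivity)
          have : 0 ≤ 6 * nn (v + 1) D * cP (v + 1) D * nRw (v + 1) D := by positivity
          linarith

end

end Pool.Agent.Helper18.PSH
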